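import Mathlib

/-!
# Definitions of MP_b73301_gt
-/

namespace Pool.Agent.H69.SemiZariski

/-- The semi-Zariski topology on a semigroup `S`: generated by the subbase of all sets
`{x | a x b ≠ c}` and `{x | a x b ≠ c x d}` with `a, b, c, d ∈ S¹ = WithOne S`. -/
@[implicit_reducible]
def semiZariski (S : Type*) [Semigroup S] : TopologicalSpace S :=
  TopologicalSpace.generateFrom
    ({U | ∃ a b c : WithOne S, U = {x : S | a * (x : WithOne S) * b ≠ c}} ∪
     {U | ∃ a b c d : WithOne S,
        U = {x : S | a * (x : WithOne S) * b ≠ c * (x : WithOne S) * d}})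

/-- `Cent (Cent F)` is finite for every finite `F ⊆ S`. -/
def FiniteDoubleCentralizers (S : Type*) [Semigroup S] : Prop :=
  ∀ F : Set S, F.Finite → (Set.centralizer (Set.centralizer F)).Finite

/-- The set `S_{≤ n}` of all `f` with `|Cent (Cent f)| ≤ n`. -/
def boundedDC (S : Type*) [Semigroup S] (n : ℕ) : Set S :=
  {f | (Set.centralizer (Set.centralizer ({f} : Set S))).encard ≤ n}

end Pool.Agent.H69.SemiZariski
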