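import Mathlib

/-!
# A tower of wreath products

Abstract group theory used for the counterexamples to both questions of MP_b73301_gt.
-/

namespace Pool.Agent.H69.WreathTower

open Set Subgroup

/-- `Tower K d`: the group `P` is generated by a finite subgroup `K` with trivial centre and more
than one element, and by involutions `d i` indexed by a well-ordered set, such that the subgroup
generated by `K` and the `d j` with `j < i` commutes elementwise with its conjugate by `d i`. -/
structure Tower {P : Type*} [Group P] {I : Type*} [LinearOrder I] (K : Subgroup P) (d : I → P) :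
    Prop where
  inv : ∀ i, d i * d i = 1
  comm : ∀ i, ∀ x ∈ closure ((K : Set P) ∪ d '' Iio i), ∀ y ∈ closure ((K : Set P) ∪ d '' Iio i),
    x * (d i * y * d i) = (d i * y * d i) * x
  finK : (K : Set P).Finite
  ntK : ∃ k ∈ K, k ≠ 1
  cK : ∀ z ∈ K, (∀ k ∈ K, z * k = k * z) → z = 1

variable {P : Type*} [Group P] {I : Type*} [LinearOrder I]

/-- The subgroup generated by `K` and the `d j`, `j ∈ J`. -/
def L (K : Subgroup P) (d : I → P) (J : Set I) : Subgroup P := closure ((K : Set P) ∪ d '' J)

variable {K : Subgroup P} {d : I → P}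

set_option linter.unusedSectionVars false

theorem K_le_L (J : Set I) : K ≤ L K d J := fun _ hk => subset_closure (Or.inl hk)

theorem d_mem_L {J : Set I} {j : I} (hj : j ∈ J) : d j ∈ L K d J :=
  subset_closure (Or.inr ⟨j, hj, rfl⟩)

theorem L_mono {J J' : Set I} (h : J ⊆ J') : L K d J ≤ L K d J' :=
  closure_mono (union_subset_union_right _ (image_mono h))

/-- Elements of `L J` lie in `K` or in some `L (Iic j)` with `j ∈ J`. -/
theorem mem_L_cases {J : Set I} {h : P} (hh : h ∈ L K d J) :
    h ∈ K ∨ ∃ j ∈ J, h ∈ L K d (Iic j) := by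
  refine closure_induction (p := fun h _ => h ∈ K ∨ ∃ j ∈ J, h ∈ L K d (Iic j)) ?_ ?_ ?_ ?_ hh
  · rintro x (hx | ⟨j, hj, rfl⟩)
    · exact Or.inl hx
    · exact Or.inr ⟨j, hj, d_mem_L (mem_Iic.2 le_rfl)⟩
  · exact Or.inl K.one_mem
  · rintro x y _ _ (hx | ⟨i, hi, hx⟩) (hy | ⟨j, hj, hy⟩)
    · exact Or.inl (K.mul_mem hx hy)
    · exact Or.inr ⟨j, hj, mul_mem (K_le_L _ hx) hy⟩
    · exact Or.inr ⟨i, hi, mul_mem hx (K_le_L _ hy)⟩
    · rcases le_total i j with hij | hij
      · exact Or.inr ⟨j, hj, mul_mem (L_mono (Iic_subset_Iic.2 hij) hx) hy⟩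
      · exact Or.inr ⟨i, hi, mul_mem hx (L_mono (Iic_subset_Iic.2 hij) hy)⟩
  · rintro x _ (hx | ⟨i, hi, hx⟩)
    · exact Or.inl (K.inv_mem hx)
    · exact Or.inr ⟨i, hi, inv_mem hx⟩

/-- Every element of `L J` lies in `L E` for a finite `E ⊆ J`. -/
theorem mem_L_finite {J : Set I} {h : P} (hh : h ∈ L K d J) :
    ∃ E : Finset I, (E : Set I) ⊆ J ∧ h ∈ L K d (E : Set I) := by
  classical
  refine closure_induction
    (p := fun h _ => ∃ E : Finset I, (E : Set I) ⊆ J ∧ h ∈ L K d (E : Set I)) ?_ ?_ ?_ ?_ hh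
  · rintro x (hx | ⟨j, hj, rfl⟩)
    · exact ⟨∅, by simp, K_le_L _ hx⟩
    · exact ⟨{j}, by simpa using hj, d_mem_L (by simp)⟩
  · exact ⟨∅, by simp, one_mem _⟩
  · rintro x y _ _ ⟨E, hE, hx⟩ ⟨E', hE', hy⟩
    refine ⟨E ∪ E', by simp [hE, hE'], mul_mem (L_mono (by simp) hx) (L_mono (by simp) hy)⟩
  · rintro x _ ⟨E, hE, hx⟩
    exact ⟨E, hE, inv_mem hx⟩

namespace Tower

variable (T : Tower K d)
include T

theorem conj_mul (i : I) (x y : P) : (d i * x * d i) * (d i * y * d i) = d i * (x * y) * d i := by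
  calc (d i * x * d i) * (d i * y * d i) = d i * x * (d i * d i) * y * d i := by group
    _ = d i * (x * y) * d i := by rw [T.inv]; group

theorem inv_eq (i : I) : (d i)⁻¹ = d i := by
  rw [inv_eq_iff_mul_eq_one]; exact T.inv i

theorem conj_inv (i : I) (x : P) : (d i * x * d i)⁻¹ = d i * x⁻¹ * d i := by
  rw [mul_inv_rev, mul_inv_rev, T.inv_eq]; group

theorem conj_conj (i : I) (x : P) : d i * (d i * x * d i) * d i = x := by
  calc d i * (d i * x * d i) * d i = (d i * d i) * x * (d i * d i) := by group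
    _ = x := by rw [T.inv]; group

theorem comm' {i : I} {x y : P} (hx : x ∈ L K d (Iio i)) (hy : y ∈ L K d (Iio i)) :
    x * (d i * y * d i) = (d i * y * d i) * x := T.comm i x hx y hy

theorem diag_comm {i : I} {c : P} (hc : c ∈ L K d (Iio i)) :
    d i * (c * (d i * c * d i)) = (c * (d i * c * d i)) * d i := by
  calc d i * (c * (d i * c * d i)) = d i * ((d i * c * d i) * c) := by rw [T.comm' hc hc]
    _ = (d i * d i) * c * d i * c := by group
    _ = c * d i * c * (d i * d i) := by rw [T.inv]; group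
    _ = (c * (d i * c * d i)) * d i := by group

/-- Normal form for `L (Iic i)`. -/
theorem decomp {i : I} {h : P} (hh : h ∈ L K d (Iic i)) :
    ∃ a ∈ L K d (Iio i), ∃ b ∈ L K d (Iio i),
      h = a * (d i * b * d i) ∨ h = a * (d i * b * d i) * d i := by
  refine closure_induction (p := fun h _ => ∃ a ∈ L K d (Iio i), ∃ b ∈ L K d (Iio i),
      h = a * (d i * b * d i) ∨ h = a * (d i * b * d i) * d i) ?_ ?_ ?_ ?_ hh
  · rintro x (hx | ⟨j, hj, rfl⟩)
    · exact ⟨x, K_le_L _ hx, 1, one_mem _, Or.inl (by rw [mul_one, T.inv, mul_one])⟩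
    · rcases (mem_Iic.1 hj).lt_or_eq with hj | rfl
      · exact ⟨d j, d_mem_L hj, 1, one_mem _, Or.inl (by rw [mul_one, T.inv, mul_one])⟩
      · exact ⟨1, one_mem _, 1, one_mem _, Or.inr (by rw [mul_one, T.inv]; group)⟩
  · exact ⟨1, one_mem _, 1, one_mem _, Or.inl (by rw [mul_one, T.inv]; group)⟩
  · rintro x y _ _ ⟨a, ha, b, hb, hx⟩ ⟨a', ha', b', hb', hy⟩
    have key1 : (a * (d i * b * d i)) * (a' * (d i * b' * d i))
        = (a * a') * (d i * (b * b') * d i) := by
      calc (a * (d i * b * d i)) * (a' * (d i * b' * d i))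
          = a * ((d i * b * d i) * a') * (d i * b' * d i) := by group
        _ = a * (a' * (d i * b * d i)) * (d i * b' * d i) := by rw [T.comm' ha' hb]
        _ = (a * a') * ((d i * b * d i) * (d i * b' * d i)) := by group
        _ = _ := by rw [T.conj_mul]
    have key2 : (a * (d i * b * d i) * d i) * (a' * (d i * b' * d i))
        = (a * b') * (d i * (b * a') * d i) * d i := by
      calc (a * (d i * b * d i) * d i) * (a' * (d i * b' * d i))
          = a * (d i * b * d i) * (d i * a' * d i) * b' * d i := by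
            calc _ = a * (d i * b * d i) * (d i * a' * d i) * (b' * d i) := by group
              _ = _ := by group
        _ = a * ((d i * (b * a') * d i) * b') * d i := by
            rw [← T.conj_mul i b a']; group
        _ = a * (b' * (d i * (b * a') * d i)) * d i := by
            rw [T.comm' hb' (mul_mem hb ha')]
        _ = _ := by group
    rcases hx with rfl | rfl <;> rcases hy with rfl | rfl
    · exact ⟨a * a', mul_mem ha ha', b * b', mul_mem hb hb', Or.inl key1⟩
    · refine ⟨a * a', mul_mem ha ha', b * b', mul_mem hb hb', Or.inr ?_⟩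
      rw [← mul_assoc, key1]
    · exact ⟨a * b', mul_mem ha hb', b * a', mul_mem hb ha', Or.inr key2⟩
    · refine ⟨a * b', mul_mem ha hb', b * a', mul_mem hb ha', Or.inl ?_⟩
      rw [← mul_assoc, key2, mul_assoc _ (d i) (d i), T.inv, mul_one]
  · rintro x _ ⟨a, ha, b, hb, hx⟩
    rcases hx with rfl | rfl
    · refine ⟨a⁻¹, inv_mem ha, b⁻¹, inv_mem hb, Or.inl ?_⟩
      rw [mul_inv_rev, T.conj_inv, T.comm' (inv_mem ha) (inv_mem hb)]
    · refine ⟨b⁻¹, inv_mem hb, a⁻¹, inv_mem ha, Or.inr ?_⟩
      rw [mul_inv_rev, mul_inv_rev, T.conj_inv, T.inv_eq]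
      calc d i * (d i * b⁻¹ * d i * a⁻¹) = (d i * d i) * b⁻¹ * d i * a⁻¹ := by group
        _ = b⁻¹ * d i * a⁻¹ * (d i * d i) := by rw [T.inv]; group
        _ = _ := by group

/-- The centre of every `L (Iio i)` is trivial. -/
theorem center_trivial [WellFoundedLT I] (i : I) : ∀ z ∈ L K d (Iio i),
    (∀ x ∈ L K d (Iio i), z * x = x * z) → z = 1 := by
  induction i using WellFoundedLT.induction with
  | _ i ih =>
    intro z hz hc
    rcases mem_L_cases hz with hzK | ⟨j, hj, hzj⟩
    · exact T.cK z hzK fun k hk => hc k (K_le_L _ hk)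
    have hj : j < i := hj
    -- trivial intersection at level `j`
    have hint : ∀ x ∈ L K d (Iio j), ∀ y ∈ L K d (Iio j), x = d j * y * d j → x = 1 := by
      intro x hx y hy hxy
      refine ih j hj x hx fun w hw => ?_
      have := T.comm' hw hy
      rw [← hxy] at this
      exact this.symm
    obtain ⟨k, hk, hk1⟩ := T.ntK
    have hsub : L K d (Iio j) ≤ L K d (Iio i) := L_mono (Iio_subset_Iio hj.le)
    have hdj : d j ∈ L K d (Iio i) := d_mem_L hj
    obtain ⟨a, ha, b, hb, hz' | hz'⟩ := T.decomp hzj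
    · -- z = a * b^d
      have haz : a = 1 := by
        refine ih j hj a ha fun x hx => ?_
        have h1 := hc x (hsub hx)
        rw [hz'] at h1
        have h2 : a * (d j * b * d j) * x = a * x * (d j * b * d j) := by
          rw [mul_assoc, ← T.comm' hx hb, ← mul_assoc]
        rw [h2] at h1
        have h3 : x * (a * (d j * b * d j)) = x * a * (d j * b * d j) := by group
        rw [h3] at h1
        exact mul_right_cancel h1
      rw [haz, one_mul] at hz'
      have h1 := hc (d j) hdj
      have h2 : z = d j * z * d j := by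
        calc z = z * (d j * d j) := by rw [T.inv, mul_one]
          _ = (z * d j) * d j := by group
          _ = d j * z * d j := by rw [h1]
      have h4 : z = b := by
        rw [h2, hz', T.conj_conj]
      have h5 : b = 1 := by
        refine hint b hb b hb ?_
        rw [← hz', h4]
      rw [h4, h5]
    · -- z = a * b^d * d
      exfalso
      have h1 := hc k (K_le_L _ hk)
      have hkj : k ∈ L K d (Iio j) := K_le_L _ hk
      -- z * k = a * b^d * d * k = a * (b k)^d * d ; conj of k by z is in the conj subgroup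
      have h2 : z * k = a * (d j * (b * k) * d j) * d j := by
        rw [hz']
        calc a * (d j * b * d j) * d j * k = a * (d j * b * d j) * (d j * k * d j) * (d j)⁻¹ := by
              group
          _ = a * (d j * (b * k) * d j) * d j := by
              rw [mul_assoc a, T.conj_mul, T.inv_eq]
      have h3 : k * z = (k * a) * (d j * b * d j) * d j := by rw [hz']; group
      rw [h2, h3] at h1
      have h4 : a * (d j * (b * k) * d j) = (k * a) * (d j * b * d j) := mul_right_cancel h1
      have h5 : (k * a)⁻¹ * a = d j * (b * (b * k)⁻¹) * d j := by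
        rw [← T.conj_mul, ← T.conj_inv]
        rw [inv_mul_eq_iff_eq_mul, ← mul_assoc, eq_mul_inv_iff_mul_eq]
        exact h4
      have h6 : (k * a)⁻¹ * a = 1 :=
        hint _ (mul_mem (inv_mem (mul_mem hkj ha)) ha) _
          (mul_mem hb (inv_mem (mul_mem hb hkj))) h5
      have h7 : a⁻¹ * k⁻¹ * a = 1 := by
        rw [← h6]; group
      have h8 : k⁻¹ = 1 := by
        have : k⁻¹ = a * (a⁻¹ * k⁻¹ * a) * a⁻¹ := by group
        rw [this, h7]; group
      exact hk1 (inv_eq_one.1 h8)

/-- `L (Iio i)` meets its conjugate by `d i` trivially. -/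
theorem inter_trivial [WellFoundedLT I] {i : I} {x y : P} (hx : x ∈ L K d (Iio i))
    (hy : y ∈ L K d (Iio i)) (hxy : x = d i * y * d i) : x = 1 := by
  refine T.center_trivial i x hx fun w hw => ?_
  have := T.comm' hw hy
  rw [← hxy] at this
  exact this.symm

theorem inter_trivial' [WellFoundedLT I] {i : I} {x y : P} (hx : x ∈ L K d (Iio i))
    (hy : y ∈ L K d (Iio i)) (hxy : x = d i * y * d i) : x = 1 ∧ y = 1 := by
  have h1 := T.inter_trivial hx hy hxy
  refine ⟨h1, ?_⟩
  have : y = d i * x * d i := by rw [hxy, T.conj_conj]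
  rw [this, h1, mul_one, T.inv]

/-- Uniqueness in the normal form. -/
theorem uniq [WellFoundedLT I] {i : I} {a b a' b' : P} (ha : a ∈ L K d (Iio i))
    (hb : b ∈ L K d (Iio i)) (ha' : a' ∈ L K d (Iio i)) (hb' : b' ∈ L K d (Iio i))
    (h : a * (d i * b * d i) = a' * (d i * b' * d i)) : a = a' ∧ b = b' := by
  have h5 : a'⁻¹ * a = d i * (b' * b⁻¹) * d i := by
    rw [← T.conj_mul, ← T.conj_inv]
    rw [inv_mul_eq_iff_eq_mul, ← mul_assoc, eq_mul_inv_iff_mul_eq]
    exact h
  obtain ⟨h1, h2⟩ := T.inter_trivial' (mul_mem (inv_mem ha') ha) (mul_mem hb' (inv_mem hb)) h5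
  exact ⟨(inv_mul_eq_one.1 h1).symm, (mul_inv_eq_one.1 h2).symm⟩

theorem d_not_mem [WellFoundedLT I] (i : I) : d i ∉ L K d (Iio i) := by
  intro h
  obtain ⟨k, hk, hk1⟩ := T.ntK
  have hk' : k ∈ L K d (Iio i) := K_le_L _ hk
  have h1 : d i * k * d i ∈ L K d (Iio i) := mul_mem (mul_mem h hk') h
  exact hk1 (T.inter_trivial' h1 hk' rfl).2

theorem d_injective [WellFoundedLT I] : Function.Injective d := by
  intro i j hij
  rcases lt_trichotomy i j with h | h | h
  · exact absurd (hij ▸ d_mem_L (K := K) (J := Iio j) h) (T.d_not_mem j)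
  · exact h
  · exact absurd (hij ▸ d_mem_L (K := K) (J := Iio i) h) (T.d_not_mem i)

/-- An element of `L J'` commuting with all elements of `L J'` that centralise a subset `F` of
`L J` lies in `L J`, for lower sets `J ⊆ J'`. -/
theorem mem_of_commutes [WellFoundedLT I] {J J' : Set I} (hJ : IsLowerSet J) (hJ' : IsLowerSet J')
    {F : Set P} (hF : F ⊆ L K d J) {h : P} (hh : h ∈ L K d J')
    (hc : ∀ c ∈ L K d J', (∀ f ∈ F, f * c = c * f) → h * c = c * h) : h ∈ L K d J := by
  by_contra hcon
  have hK : h ∉ K := fun hk => hcon (K_le_L _ hk)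
  -- the set of levels of `h`
  have hne : {i : I | i ∈ J' ∧ h ∈ L K d (Iic i)}.Nonempty := by
    rcases mem_L_cases hh with hk | ⟨j, hj, hj'⟩
    · exact absurd hk hK
    · exact ⟨j, hj, hj'⟩
  obtain ⟨δ, ⟨hδJ', hδ⟩, hmin⟩ := WellFounded.has_min (wellFounded_lt (α := I)) _ hne
  have hδJ : δ ∉ J := by
    intro hmem
    exact hcon (L_mono (fun x hx => hJ (mem_Iic.1 hx) hmem) hδ)
  have hJsub : J ⊆ Iio δ := by
    intro j hj
    by_contra hle
    exact hδJ (hJ (not_lt.1 hle) hj)
  have hsub' : L K d (Iic δ) ≤ L K d J' := L_mono fun x hx => hJ' (mem_Iic.1 hx) hδJ'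
  have hsub : L K d (Iio δ) ≤ L K d J' :=
    (L_mono (Iio_subset_Iic_self)).trans hsub'
  have hcomm : ∀ x ∈ L K d (Iio δ), h * (d δ * x * d δ) = (d δ * x * d δ) * h := by
    intro x hx
    refine hc _ ?_ ?_
    · have hd : d δ ∈ L K d J' := d_mem_L hδJ'
      exact mul_mem (mul_mem hd (hsub hx)) hd
    · intro f hf
      exact T.comm' (L_mono hJsub (hF hf)) hx
  obtain ⟨k, hk, hk1⟩ := T.ntK
  obtain ⟨a, ha, b, hb, hz | hz⟩ := T.decomp hδ
  · -- then b is central
    have hb1 : b = 1 := by
      refine T.center_trivial δ b hb fun x hx => ?_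
      have h1 := hcomm x hx
      have h2 : h * (d δ * x * d δ) = a * (d δ * (b * x) * d δ) := by
        rw [hz, mul_assoc, T.conj_mul]
      have h3 : (d δ * x * d δ) * h = a * (d δ * (x * b) * d δ) := by
        rw [hz, ← mul_assoc, ← T.comm' ha hx, mul_assoc, T.conj_mul]
      rw [h2, h3] at h1
      exact (T.uniq ha (mul_mem hb hx) ha (mul_mem hx hb) h1).2
    rw [hb1, mul_one, T.inv, mul_one] at hz
    rw [← hz] at ha
    rcases mem_L_cases ha with hk | ⟨j, hj, hj'⟩
    · exact hK hk
    · exact hmin j ⟨hJ' (le_of_lt hj) hδJ', hj'⟩ hj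
  · -- impossible: conjugation by h would map the conjugate subgroup to the subgroup
    have hkδ : k ∈ L K d (Iio δ) := K_le_L _ hk
    have h1 := hcomm k hkδ
    have h2 : h * (d δ * k * d δ) = (a * k) * (d δ * b * d δ) * d δ := by
      rw [hz]
      calc a * (d δ * b * d δ) * d δ * (d δ * k * d δ)
          = a * (d δ * b * d δ) * (d δ * (d δ * k * d δ) * d δ) * (d δ)⁻¹ := by group
        _ = a * ((d δ * b * d δ) * k) * d δ := by
            rw [T.conj_conj, T.inv_eq]; group
        _ = a * (k * (d δ * b * d δ)) * d δ := by rw [T.comm' hkδ hb]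
        _ = _ := by group
    have h3 : (d δ * k * d δ) * h = a * (d δ * (k * b) * d δ) * d δ := by
      rw [hz, ← T.conj_mul]
      calc (d δ * k * d δ) * (a * (d δ * b * d δ) * d δ)
          = ((d δ * k * d δ) * a) * (d δ * b * d δ) * d δ := by group
        _ = (a * (d δ * k * d δ)) * (d δ * b * d δ) * d δ := by rw [T.comm' ha hkδ]
        _ = _ := by group
    rw [h2, h3] at h1
    have h4 := (T.uniq (mul_mem ha hkδ) hb ha (mul_mem hkδ hb) (mul_right_cancel h1)).1
    exact hk1 (by simpa using h4)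

/-- The relative double centralizer of `K ∪ d '' E` in `L J` is finite, `E` finite. -/
theorem finite_rel [WellFoundedLT I] (E : Finset I) : ∀ J : Set I, IsLowerSet J →
    (E : Set I) ⊆ J → {h : P | h ∈ L K d J ∧ ∀ c ∈ L K d J,
      (∀ f ∈ (K : Set P) ∪ d '' (E : Set I), f * c = c * f) → h * c = c * h}.Finite := by
  classical
  induction E using Finset.induction_on_max with
  | empty =>
    intro J hJ _
    refine T.finK.subset ?_
    rintro h ⟨hh, hc⟩
    have := T.mem_of_commutes (J := ∅) (J' := J) isLowerSet_empty hJ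
      (F := (K : Set P) ∪ d '' ((∅ : Finset I) : Set I)) (by
        intro x hx
        rcases hx with hx | ⟨j, hj, _⟩
        · exact K_le_L _ hx
        · simp at hj) hh hc
    rcases mem_L_cases this with hk | ⟨j, hj, _⟩
    · exact hk
    · exact absurd hj (Set.notMem_empty _)
  | insert e E hlt ih =>
    intro J hJ hEJ
    have heJ : e ∈ J := hEJ (by simp)
    have hIic : Iic e ⊆ J := fun x hx => hJ (mem_Iic.1 hx) heJ
    have hfin := ih (Iio e) (isLowerSet_Iio e) (fun x hx => hlt x hx)
    set R := {h : P | h ∈ L K d (Iio e) ∧ ∀ c ∈ L K d (Iio e),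
      (∀ f ∈ (K : Set P) ∪ d '' (E : Set I), f * c = c * f) → h * c = c * h} with hR
    have hfin2 : ((fun p : P × P => p.1 * (d e * p.2 * d e)) '' (R ×ˢ R) ∪
        (fun p : P × P => p.1 * (d e * p.2 * d e) * d e) '' (R ×ˢ R)).Finite :=
      ((hfin.prod hfin).image _).union ((hfin.prod hfin).image _)
    refine hfin2.subset ?_
    rintro h ⟨hh, hc⟩
    have hFsub : (K : Set P) ∪ d '' ((insert e E : Finset I) : Set I) ⊆ L K d (Iic e) := by
      intro x hx
      rcases hx with hx | ⟨j, hj, rfl⟩
      · exact K_le_L _ hx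
      · refine d_mem_L ?_
        rcases Finset.mem_insert.1 hj with rfl | hj
        · exact mem_Iic.2 le_rfl
        · exact (hlt j hj).le
    have hhe : h ∈ L K d (Iic e) := T.mem_of_commutes (isLowerSet_Iic e) hJ hFsub hh hc
    have hLe : L K d (Iio e) ≤ L K d J := L_mono (Iio_subset_Iic_self.trans hIic)
    have hde : d e ∈ L K d J := d_mem_L heJ
    -- diagonal elements
    have hdiag : ∀ c ∈ L K d (Iio e), (∀ f ∈ (K : Set P) ∪ d '' (E : Set I), f * c = c * f) →
        h * (c * (d e * c * d e)) = (c * (d e * c * d e)) * h := by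
      intro c hcL hcc
      refine hc _ (mul_mem (hLe hcL) (mul_mem (mul_mem hde (hLe hcL)) hde)) ?_
      have hbase : ∀ f ∈ L K d (Iio e), f * c = c * f →
          f * (c * (d e * c * d e)) = (c * (d e * c * d e)) * f := by
        intro f hf hfc
        rw [← mul_assoc, hfc, mul_assoc, T.comm' hf hcL, ← mul_assoc]
      rintro f (hf | ⟨j, hj, rfl⟩)
      · exact hbase f (K_le_L _ hf) (hcc f (Or.inl hf))
      · rcases Finset.mem_insert.1 hj with rfl | hj
        · exact T.diag_comm hcL
        · exact hbase (d j) (d_mem_L (hlt j hj)) (hcc _ (Or.inr ⟨j, hj, rfl⟩))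
    obtain ⟨a, ha, b, hb, hz⟩ := T.decomp hhe
    -- `a * b^d` also commutes with the diagonal elements
    have hab : ∀ c ∈ L K d (Iio e), (∀ f ∈ (K : Set P) ∪ d '' (E : Set I), f * c = c * f) →
        a * c = c * a ∧ b * c = c * b := by
      intro c hcL hcc
      have h1 := hdiag c hcL hcc
      have h2 : (a * (d e * b * d e)) * (c * (d e * c * d e)) =
          (c * (d e * c * d e)) * (a * (d e * b * d e)) := by
        rcases hz with rfl | rfl
        · exact h1
        · have h3 : d e * (c * (d e * c * d e)) = (c * (d e * c * d e)) * d e := T.diag_comm hcL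
          have h4 : (a * (d e * b * d e)) * (c * (d e * c * d e)) * d e =
              (c * (d e * c * d e)) * (a * (d e * b * d e)) * d e := by
            rw [mul_assoc _ _ (d e), ← h3, ← mul_assoc, h1]; group
          exact mul_right_cancel h4
      have h5 : (a * c) * (d e * (b * c) * d e) = (c * a) * (d e * (c * b) * d e) := by
        calc (a * c) * (d e * (b * c) * d e)
            = a * (c * (d e * b * d e)) * (d e * c * d e) := by rw [← T.conj_mul]; group
          _ = (a * (d e * b * d e)) * (c * (d e * c * d e)) := by rw [T.comm' hcL hb]; group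
          _ = (c * (d e * c * d e)) * (a * (d e * b * d e)) := h2
          _ = c * ((d e * c * d e) * a) * (d e * b * d e) := by group
          _ = c * (a * (d e * c * d e)) * (d e * b * d e) := by rw [T.comm' ha hcL]
          _ = _ := by rw [← T.conj_mul]; group
      exact T.uniq (mul_mem ha hcL) (mul_mem hb hcL) (mul_mem hcL ha) (mul_mem hcL hb) h5
    have haR : a ∈ R := ⟨ha, fun c hcL hcc => (hab c hcL hcc).1⟩
    have hbR : b ∈ R := ⟨hb, fun c hcL hcc => (hab c hcL hcc).2⟩
    rcases hz with rfl | rfl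
    · exact Or.inl ⟨(a, b), ⟨haR, hbR⟩, rfl⟩
    · exact Or.inr ⟨(a, b), ⟨haR, hbR⟩, rfl⟩

end Tower

end Pool.Agent.H69.WreathTower
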