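import Mathlib
import Pool.Agent.H69.WreathTower
import Pool.Agent.H69.SemiZariskiDefs

/-!
# The semi-Zariski topology and the counterexample group

Properties, relevant for MP_b73301_gt, of the group generated by a tower of wreath
products over the first uncountable ordinal.
-/

namespace Pool.Agent.H69.SemiZariski

set_option linter.unusedSectionVars false

open Set Subgroup Pool.Agent.H69.WreathTower

section abstract

variable {P : Type*} [Group P] {I : Type*} [LinearOrder I] [WellFoundedLT I]
  {K : Subgroup P} {d : I → P}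

/-- Finite double centralizers. -/
theorem fdc (T : Tower K d) (htop : L K d univ = ⊤) : FiniteDoubleCentralizers P := by
  classical
  intro F hF
  -- choose a finite `E` with `F ⊆ L E`
  have hE : ∃ E : Finset I, F ⊆ L K d (E : Set I) := by
    refine Set.Finite.induction_on (motive := fun F _ => ∃ E : Finset I, F ⊆ L K d (E : Set I))
      F hF ⟨∅, by simp⟩ ?_
    rintro a s _ _ ⟨E, hE⟩
    have ha : a ∈ L K d (univ : Set I) := by rw [htop]; exact mem_top a
    obtain ⟨E', _, haE'⟩ := mem_L_finite ha
    refine ⟨E' ∪ E, ?_⟩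
    rintro x (rfl | hx)
    · exact L_mono (by simp) haE'
    · exact L_mono (by simp) (hE hx)
  obtain ⟨E, hE⟩ := hE
  refine (T.finite_rel E univ isLowerSet_univ (subset_univ _)).subset ?_
  intro h hh
  refine ⟨by rw [htop]; exact mem_top h, fun c _ hc => ?_⟩
  have hcF : c ∈ Set.centralizer F := by
    intro f hf
    have hf' : f ∈ closure ((K : Set P) ∪ d '' (E : Set I)) := hE hf
    refine closure_induction (p := fun f _ => f * c = c * f) ?_ ?_ ?_ ?_ hf'
    · intro x hx; exact hc x hx
    · simp
    · intro x y _ _ hx hy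
      rw [mul_assoc, hy, ← mul_assoc, hx, mul_assoc]
    · intro x _ hx
      rw [inv_mul_eq_iff_eq_mul, ← mul_assoc, hx, mul_assoc, mul_inv_cancel, mul_one]
  exact (hh c hcF).symm

/-- The double centralizer of `d i` is contained in `{1, d i}`. -/
theorem cc_d (T : Tower K d) (htop : L K d univ = ⊤) (i : I) :
    Set.centralizer (Set.centralizer ({d i} : Set P)) ⊆ {1, d i} := by
  intro h hh
  have hh' : h ∈ L K d (univ : Set I) := by rw [htop]; exact mem_top h
  have hmem : h ∈ L K d (Iic i) := by
    refine T.mem_of_commutes (J := Iic i) (J' := univ) (isLowerSet_Iic i) isLowerSet_univ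
      (F := {d i}) (by
        intro x hx
        rw [mem_singleton_iff.1 hx]
        exact d_mem_L (mem_Iic.2 le_rfl)) hh' ?_
    intro c _ hc
    have : c ∈ Set.centralizer ({d i} : Set P) := fun m hm => hc m hm
    exact (hh c this).symm
  have hdiag : ∀ c ∈ L K d (Iio i), h * (c * (d i * c * d i)) = (c * (d i * c * d i)) * h := by
    intro c hc
    have : (c * (d i * c * d i)) ∈ Set.centralizer ({d i} : Set P) := by
      intro m hm
      rw [mem_singleton_iff.1 hm]
      exact T.diag_comm hc
    exact (hh _ this).symm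
  obtain ⟨a, ha, b, hb, hz⟩ := T.decomp hmem
  have hab : ∀ c ∈ L K d (Iio i), a * c = c * a ∧ b * c = c * b := by
    intro c hcL
    have h1 := hdiag c hcL
    have h2 : (a * (d i * b * d i)) * (c * (d i * c * d i)) =
        (c * (d i * c * d i)) * (a * (d i * b * d i)) := by
      rcases hz with rfl | rfl
      · exact h1
      · have h3 : d i * (c * (d i * c * d i)) = (c * (d i * c * d i)) * d i := T.diag_comm hcL
        have h4 : (a * (d i * b * d i)) * (c * (d i * c * d i)) * d i =
            (c * (d i * c * d i)) * (a * (d i * b * d i)) * d i := by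
          rw [mul_assoc _ _ (d i), ← h3, ← mul_assoc, h1]; group
        exact mul_right_cancel h4
    have h5 : (a * c) * (d i * (b * c) * d i) = (c * a) * (d i * (c * b) * d i) := by
      calc (a * c) * (d i * (b * c) * d i)
          = a * (c * (d i * b * d i)) * (d i * c * d i) := by rw [← T.conj_mul]; group
        _ = (a * (d i * b * d i)) * (c * (d i * c * d i)) := by rw [T.comm' hcL hb]; group
        _ = (c * (d i * c * d i)) * (a * (d i * b * d i)) := h2
        _ = c * ((d i * c * d i) * a) * (d i * b * d i) := by group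
        _ = c * (a * (d i * c * d i)) * (d i * b * d i) := by rw [T.comm' ha hcL]
        _ = _ := by rw [← T.conj_mul]; group
    exact T.uniq (mul_mem ha hcL) (mul_mem hb hcL) (mul_mem hcL ha) (mul_mem hcL hb) h5
  have ha1 : a = 1 := T.center_trivial i a ha fun x hx => (hab x hx).1
  have hb1 : b = 1 := T.center_trivial i b hb fun x hx => (hab x hx).2
  subst ha1 hb1
  rcases hz with rfl | rfl
  · left; rw [mul_one, T.inv, one_mul]
  · right
    rw [mem_singleton_iff, mul_one, T.inv]; group

theorem d_mem_boundedDC (T : Tower K d) (htop : L K d univ = ⊤) (i : I) {n : ℕ} (hn : 2 ≤ n) :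
    d i ∈ boundedDC P n := by
  show (Set.centralizer (Set.centralizer ({d i} : Set P))).encard ≤ n
  calc (Set.centralizer (Set.centralizer ({d i} : Set P))).encard
      ≤ ({1, d i} : Set P).encard := encard_le_encard (cc_d T htop i)
    _ ≤ ({d i} : Set P).encard + 1 := encard_insert_le _ _
    _ ≤ 2 := by rw [encard_singleton]; norm_num
    _ ≤ n := by exact_mod_cast hn

/-- Order doubling. -/
theorem order_double (T : Tower K d) {i : I} {f : P} (hf : f ∈ L K d (Iio i)) :
    orderOf ((f * d i) ^ 2) = orderOf f := by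
  have h1 : (f * d i) ^ 2 = f * (d i * f * d i) := by rw [sq]; group
  have hcomm : Commute f (d i * f * d i) := T.comm' hf hf
  have hconj : ∀ k : ℕ, (d i * f * d i) ^ k = d i * f ^ k * d i := by
    intro k
    induction k with
    | zero => rw [pow_zero, pow_zero, mul_one, T.inv]
    | succ k ih => rw [pow_succ, ih, T.conj_mul, pow_succ]
  rw [h1]
  apply orderOf_eq_orderOf_iff.2
  intro k
  rw [hcomm.mul_pow, hconj]
  constructor
  · intro h
    have h2 : f ^ k = d i * (f ^ k)⁻¹ * d i := by
      rw [← T.conj_inv]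
      exact eq_inv_of_mul_eq_one_left h
    exact T.inter_trivial (pow_mem hf k) (inv_mem (pow_mem hf k)) h2
  · intro h
    rw [h, mul_one, T.inv, mul_one]

/-- Elements of order `2 ^ m`. -/
theorem exists_orderOf (T : Tower K d) (s : ℕ → I) (hs : StrictMono s) (m : ℕ) :
    ∃ f ∈ L K d (Iic (s m)), orderOf f = 2 ^ (m + 1) := by
  induction m with
  | zero =>
    refine ⟨d (s 0), d_mem_L (mem_Iic.2 le_rfl), ?_⟩
    have h2 : d (s 0) ^ 2 = 1 := by rw [sq]; exact T.inv _
    have h1 : d (s 0) ≠ 1 := by
      intro h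
      exact T.d_not_mem (s 0) (h ▸ one_mem _)
    rw [zero_add, pow_one]
    exact orderOf_eq_prime h2 h1
  | succ m ih =>
    obtain ⟨f, hf, hord⟩ := ih
    have hf' : f ∈ L K d (Iio (s (m + 1))) := L_mono (fun x hx =>
      lt_of_le_of_lt (mem_Iic.1 hx) (hs (Nat.lt_succ_self m))) hf
    refine ⟨f * d (s (m + 1)), mul_mem (L_mono Iio_subset_Iic_self hf')
      (d_mem_L (mem_Iic.2 le_rfl)), ?_⟩
    have h := order_double T hf'
    rw [hord] at h
    have hpos : 0 < orderOf (f * d (s (m + 1))) := by
      rw [Nat.pos_iff_ne_zero]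
      intro h0
      have : (orderOf ((f * d (s (m + 1))) ^ 2)) = 0 := by
        rw [orderOf_eq_zero_iff] at h0 ⊢
        intro hfin
        exact h0 (by
          rw [isOfFinOrder_iff_pow_eq_one] at hfin ⊢
          obtain ⟨n, hn, hn1⟩ := hfin
          exact ⟨2 * n, by omega, by rw [pow_mul]; exact hn1⟩)
      rw [h] at this
      exact absurd this (by positivity)
    rw [orderOf_pow' _ (by norm_num : (2 : ℕ) ≠ 0)] at h
    -- h : orderOf x / gcd (orderOf x) 2 = 2 ^ (m+1)
    rcases Nat.even_or_odd (orderOf (f * d (s (m + 1)))) with he | ho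
    · have hg : Nat.gcd (orderOf (f * d (s (m + 1)))) 2 = 2 :=
        Nat.gcd_eq_right he.two_dvd
      rw [hg] at h
      obtain ⟨r, hr⟩ := he.two_dvd
      rw [hr] at h ⊢
      rw [Nat.mul_div_cancel_left _ (by norm_num)] at h
      rw [h]; ring
    · have hg : Nat.gcd (orderOf (f * d (s (m + 1)))) 2 = 1 :=
        (Nat.coprime_two_right).2 ho
      rw [hg, Nat.div_one] at h
      rw [h] at ho
      exact absurd ho (by
        rw [Nat.not_odd_iff_even]
        exact (Nat.even_pow.2 ⟨even_two, by omega⟩))

/-- The sets `S_{≤ n}` are never everything. -/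
theorem boundedDC_ne_univ (T : Tower K d) (s : ℕ → I) (hs : StrictMono s) (n : ℕ) :
    boundedDC P n ≠ univ := by
  intro huniv
  obtain ⟨f, _, hord⟩ := exists_orderOf T s hs n
  have hmem : f ∈ boundedDC P n := by rw [huniv]; exact mem_univ f
  have hsub : ((fun k : ℕ => f ^ k) '' (Finset.range (2 ^ (n + 1)) : Set ℕ)) ⊆
      Set.centralizer (Set.centralizer ({f} : Set P)) := by
    rintro _ ⟨k, _, rfl⟩ c hc
    have h : f * c = c * f := hc f rfl
    exact (Commute.pow_left (show Commute f c from h) k).symm
  have hcard : ((fun k : ℕ => f ^ k) '' (Finset.range (2 ^ (n + 1)) : Set ℕ)).encard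
      = 2 ^ (n + 1) := by
    rw [InjOn.encard_image]
    · rw [Set.encard_coe_eq_coe_finsetCard, Finset.card_range]; norm_cast
    · intro a ha b hb hab
      have ha' : a < orderOf f := by rw [hord]; simpa using ha
      have hb' : b < orderOf f := by rw [hord]; simpa using hb
      exact pow_injOn_Iio_orderOf ha' hb' hab
  have h1 : (2 ^ (n + 1) : ℕ∞) ≤ n := by
    calc (2 ^ (n + 1) : ℕ∞) = _ := hcard.symm
      _ ≤ _ := encard_le_encard hsub
      _ ≤ n := hmem
  have h2 : 2 ^ (n + 1) ≤ n := by exact_mod_cast h1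
  have h3 : n < 2 ^ n := Nat.lt_two_pow_self
  have h4 : 2 ^ n ≤ 2 ^ (n + 1) := Nat.pow_le_pow_right (by norm_num) (Nat.le_succ n)
  omega

/-- Every finitely many (indeed, by the third hypothesis, countably many) elements of `P¹` lie in
a level. -/
theorem exists_level [NoMaxOrder I] [Nonempty I] (htop : L K d univ = ⊤) (a : WithOne P) :
    ∃ i : I, ∀ j, i ≤ j → ∀ p : P, a = (p : WithOne P) → p ∈ L K d (Iio j) := by
  induction a using WithOne.recOneCoe with
  | one =>
    obtain ⟨i⟩ := ‹Nonempty I›
    exact ⟨i, fun j _ p hp => absurd hp.symm WithOne.coe_ne_one⟩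
  | coe q =>
    have hq : q ∈ L K d (univ : Set I) := by rw [htop]; exact mem_top q
    rcases mem_L_cases hq with hk | ⟨i, _, hi⟩
    · obtain ⟨i⟩ := ‹Nonempty I›
      exact ⟨i, fun j _ p hp => by rw [← WithOne.coe_inj.1 hp]; exact K_le_L _ hk⟩
    · obtain ⟨i', hi'⟩ := exists_gt i
      refine ⟨i', fun j hj p hp => ?_⟩
      rw [← WithOne.coe_inj.1 hp]
      exact L_mono (fun x hx => lt_of_le_of_lt (mem_Iic.1 hx) (lt_of_lt_of_le hi' hj)) hi

/-- Replace the external identity by the identity of the group. -/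
def low (a : WithOne P) : P := WithOne.lift (MulHom.id P) a

theorem low_mul (a b : WithOne P) : low (a * b) = low a * low b := by
  unfold low; exact map_mul _ a b

theorem low_coe (p : P) : low (p : WithOne P) = p := by
  unfold low; simp

theorem mem_low [NoMaxOrder I] [Nonempty I] (htop : L K d univ = ⊤) (a : WithOne P) :
    ∃ i : I, ∀ j, i ≤ j → low a ∈ L K d (Iio j) := by
  obtain ⟨i, hi⟩ := exists_level htop a
  refine ⟨i, fun j hj => ?_⟩
  induction a using WithOne.recOneCoe with
  | one =>
    have : low (1 : WithOne P) = 1 := by unfold low; exact map_one _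
    rw [this]; exact one_mem _
  | coe q => rw [low_coe]; exact hi j hj q rfl

/-- In `P¹`, a product containing a genuine element of `P` is a genuine element of `P`. -/
theorem coe_low_mul (a b : WithOne P) (x : P) :
    a * (x : WithOne P) * b = ((low a * x * low b : P) : WithOne P) := by
  induction a using WithOne.recOneCoe with
  | one =>
    have h1 : low (1 : WithOne P) = 1 := by unfold low; exact map_one _
    induction b using WithOne.recOneCoe with
    | one => rw [h1]; simp
    | coe b => rw [h1, low_coe]; simp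
  | coe a =>
    induction b using WithOne.recOneCoe with
    | one =>
      have h1 : low (1 : WithOne P) = 1 := by unfold low; exact map_one _
      rw [h1, low_coe]; simp
    | coe b => rw [low_coe, low_coe]; simp

/-- Every nonempty open set of the semi-Zariski topology contains `d j` for all large `j`. -/
theorem open_contains [NoMaxOrder I] [Nonempty I] (T : Tower K d) (htop : L K d univ = ⊤)
    {U : Set P} (hU : @IsOpen P (semiZariski P) U) : U.Nonempty → ∃ i, ∀ j, i ≤ j → d j ∈ U := by
  have hU' : TopologicalSpace.GenerateOpen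
    ({U | ∃ a b c : WithOne P, U = {x : P | a * (x : WithOne P) * b ≠ c}} ∪
     {U | ∃ a b c d : WithOne P,
        U = {x : P | a * (x : WithOne P) * b ≠ c * (x : WithOne P) * d}}) U := hU
  clear hU
  induction hU' with
  | basic V hV =>
    rintro ⟨x, hx⟩
    rcases hV with ⟨a, b, c, rfl⟩ | ⟨a, b, c, e, rfl⟩
    · obtain ⟨i1, h1⟩ := mem_low (d := d) htop a
      obtain ⟨i2, h2⟩ := mem_low (d := d) htop b
      obtain ⟨i3, h3⟩ := mem_low (d := d) htop c
      refine ⟨max i1 (max i2 i3), fun j hj hcon => ?_⟩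
      have ha := h1 j (le_trans (le_max_left _ _) hj)
      have hb := h2 j (le_trans (le_trans (le_max_left _ _) (le_max_right _ _)) hj)
      have hc := h3 j (le_trans (le_trans (le_max_right _ _) (le_max_right _ _)) hj)
      have h4 : low a * d j * low b = low c := by
        rw [coe_low_mul] at hcon
        rw [← hcon, low_coe]
      have h5 : d j = (low a)⁻¹ * low c * (low b)⁻¹ := by rw [← h4]; group
      exact T.d_not_mem j (h5 ▸ mul_mem (mul_mem (inv_mem ha) hc) (inv_mem hb))
    · obtain ⟨i1, h1⟩ := mem_low (d := d) htop a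
      obtain ⟨i2, h2⟩ := mem_low (d := d) htop b
      obtain ⟨i3, h3⟩ := mem_low (d := d) htop c
      obtain ⟨i4, h4⟩ := mem_low (d := d) htop e
      refine ⟨max (max i1 i2) (max i3 i4), fun j hj hcon => ?_⟩
      have ha := h1 j (le_trans (le_trans (le_max_left _ _) (le_max_left _ _)) hj)
      have hb := h2 j (le_trans (le_trans (le_max_right _ _) (le_max_left _ _)) hj)
      have hc := h3 j (le_trans (le_trans (le_max_left _ _) (le_max_right _ _)) hj)
      have he := h4 j (le_trans (le_trans (le_max_right _ _) (le_max_right _ _)) hj)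
      have h5 : low a * d j * low b = low c * d j * low e := by
        rw [coe_low_mul, coe_low_mul] at hcon
        exact WithOne.coe_inj.1 hcon
      have h6 : (low e) * (low b)⁻¹ = d j * ((low c)⁻¹ * low a) * d j := by
        have h7 : (low c)⁻¹ * (low a * d j * low b) = d j * low e := by rw [h5]; group
        calc (low e) * (low b)⁻¹ = (d j * d j) * low e * (low b)⁻¹ := by rw [T.inv, one_mul]
          _ = d j * (d j * low e) * (low b)⁻¹ := by group
          _ = d j * ((low c)⁻¹ * (low a * d j * low b)) * (low b)⁻¹ := by rw [h7]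
          _ = _ := by group
      obtain ⟨h7, h8⟩ := T.inter_trivial' (mul_mem he (inv_mem hb)) (mul_mem (inv_mem hc) ha) h6
      have hba : low e = low b := mul_inv_eq_one.1 h7
      have hca : low c = low a := inv_mul_eq_one.1 h8
      apply hx
      rw [coe_low_mul, coe_low_mul, hba, hca]
  | univ =>
    intro _
    obtain ⟨i⟩ := ‹Nonempty I›
    exact ⟨i, fun j _ => mem_univ _⟩
  | inter U V _ _ ihU ihV =>
    rintro ⟨x, hxU, hxV⟩
    obtain ⟨i, hi⟩ := ihU ⟨x, hxU⟩
    obtain ⟨j, hj⟩ := ihV ⟨x, hxV⟩
    exact ⟨max i j, fun k hk => ⟨hi k (le_trans (le_max_left _ _) hk),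
      hj k (le_trans (le_max_right _ _) hk)⟩⟩
  | sUnion S _ ih =>
    rintro ⟨x, U, hUS, hxU⟩
    obtain ⟨i, hi⟩ := ih U hUS ⟨x, hxU⟩
    exact ⟨i, fun j hj => ⟨U, hUS, hi j hj⟩⟩

/-- `S_{≤ n}` is not closed for `n ≥ 2`. -/
theorem not_closed [NoMaxOrder I] [Nonempty I] (T : Tower K d) (htop : L K d univ = ⊤)
    (s : ℕ → I) (hs : StrictMono s) {n : ℕ} (hn : 2 ≤ n) :
    ¬ @IsClosed P (semiZariski P) (boundedDC P n) := by
  intro hcl
  have hopen : @IsOpen P (semiZariski P) (boundedDC P n)ᶜ :=
    (@isOpen_compl_iff P (boundedDC P n) (semiZariski P)).2 hcl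
  have hne : ((boundedDC P n)ᶜ).Nonempty := by
    rw [nonempty_compl]; exact boundedDC_ne_univ T s hs n
  obtain ⟨i, hi⟩ := open_contains T htop hopen hne
  exact hi i le_rfl (d_mem_boundedDC T htop i hn)

/-- `S_{≤ n}` is not `σ`-discrete for `n ≥ 2`, provided countable sets of indices are bounded. -/
theorem not_sigma_discrete [NoMaxOrder I] [Nonempty I] (T : Tower K d) (htop : L K d univ = ⊤)
    (hI : ∀ s : ℕ → I, ∃ u, ∀ k, s k < u) {n : ℕ} (hn : 2 ≤ n) :
    ¬ ∃ D : ℕ → Set P, boundedDC P n = ⋃ k, D k ∧ ∀ k, @IsDiscrete P (semiZariski P) (D k) := by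
  classical
  rintro ⟨D, hD, hdisc⟩
  let _ := semiZariski P
  -- for each `k` an index beyond which `d j ∉ D k`
  have key : ∀ k, ∃ i, ∀ j, i < j → d j ∉ D k := by
    intro k
    by_cases hne : (D k).Nonempty
    · obtain ⟨x, hx⟩ := hne
      have hdt : DiscreteTopology (D k) := (hdisc k).to_subtype
      have hopen : IsOpen ({⟨x, hx⟩} : Set (D k)) := isOpen_discrete _
      obtain ⟨U, hU, hUx⟩ := isOpen_induced_iff.1 hopen
      have hxU : x ∈ U := by
        have : (⟨x, hx⟩ : D k) ∈ (Subtype.val ⁻¹' U : Set (D k)) := by rw [hUx]; rfl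
        exact this
      obtain ⟨i, hi⟩ := open_contains T htop hU ⟨x, hxU⟩
      have honly : ∀ j, i ≤ j → d j ∈ D k → d j = x := by
        intro j hj hjD
        have : (⟨d j, hjD⟩ : D k) ∈ (Subtype.val ⁻¹' U : Set (D k)) := hi j hj
        rw [hUx] at this
        exact congrArg Subtype.val (mem_singleton_iff.1 this)
      by_cases hex : ∃ j, i ≤ j ∧ d j ∈ D k
      · obtain ⟨j, hj, hjD⟩ := hex
        refine ⟨j, fun j' hj' hj'D => ?_⟩
        have h1 := honly j hj hjD
        have h2 := honly j' (hj.trans hj'.le) hj'D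
        exact absurd (T.d_injective (h1.trans h2.symm)) hj'.ne
      · exact ⟨i, fun j hj hjD => hex ⟨j, hj.le, hjD⟩⟩
    · obtain ⟨i⟩ := ‹Nonempty I›
      exact ⟨i, fun j _ hjD => hne ⟨_, hjD⟩⟩
  choose s hs using key
  obtain ⟨u, hu⟩ := hI s
  have hmem := d_mem_boundedDC T htop u hn
  rw [hD] at hmem
  obtain ⟨k, hk⟩ := mem_iUnion.1 hmem
  exact hs k u (hu k) hk

end abstract

end Pool.Agent.H69.SemiZariski
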