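import Mathlib
import Pool.Agent.H69.SemiZariski

/-!
# The group

Permutations of `Finset I × Fin 3` for a linearly ordered set `I`; the involution `toggle i` adds
or removes `i` from every set all of whose elements are at most `i`.
-/

namespace Pool.Agent.H69.Omega1Group

set_option linter.unusedSectionVars false

open Set Subgroup Pool.Agent.H69.WreathTower Pool.Agent.H69.SemiZariski

section perm

variable {I : Type*} [LinearOrder I]

/-- Toggle `i` in the sets bounded by `i`. -/
def toggleFun (i : I) (p : Finset I × Fin 3) : Finset I × Fin 3 :=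
  if ∀ a ∈ p.1, a ≤ i then (symmDiff p.1 {i}, p.2) else p

theorem toggle_cond {i : I} {A : Finset I} (h : ∀ a ∈ A, a ≤ i) :
    ∀ a ∈ symmDiff A {i}, a ≤ i := by
  intro a ha
  rw [Finset.mem_symmDiff] at ha
  rcases ha with ⟨ha, _⟩ | ⟨ha, _⟩
  · exact h a ha
  · rw [Finset.mem_singleton.1 ha]

theorem toggle_invol (i : I) : Function.Involutive (toggleFun i) := by
  intro p
  unfold toggleFun
  by_cases h : ∀ a ∈ p.1, a ≤ i
  · rw [if_pos h]
    have h2 : ∀ a ∈ (symmDiff p.1 {i}, p.2).1, a ≤ i := toggle_cond h
    rw [if_pos h2]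
    simp
  · rw [if_neg h, if_neg h]

/-- The involution `toggle i`. -/
def toggle (i : I) : Equiv.Perm (Finset I × Fin 3) := (toggle_invol i).toPerm _

theorem toggle_apply (i : I) (p : Finset I × Fin 3) : toggle i p = toggleFun i p := rfl

/-- The action of a permutation of `Fin 3` on the points `(∅, y)`. -/
def baseFun (g : Equiv.Perm (Fin 3)) (p : Finset I × Fin 3) : Finset I × Fin 3 :=
  if p.1 = ∅ then (p.1, g p.2) else p

theorem baseFun_mul (g h : Equiv.Perm (Fin 3)) (p : Finset I × Fin 3) :
    baseFun (g * h) p = baseFun g (baseFun h p) := by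
  unfold baseFun
  by_cases hp : p.1 = ∅
  · simp [hp]
  · simp [hp]

theorem baseFun_one (p : Finset I × Fin 3) : baseFun 1 p = p := by
  unfold baseFun
  by_cases hp : p.1 = ∅
  · simp
  · simp [hp]

/-- The homomorphism from `Perm (Fin 3)`. -/
def base : Equiv.Perm (Fin 3) →* Equiv.Perm (Finset I × Fin 3) where
  toFun g :=
    { toFun := baseFun g
      invFun := baseFun g⁻¹
      left_inv := fun p => by rw [← baseFun_mul, inv_mul_cancel, baseFun_one]
      right_inv := fun p => by rw [← baseFun_mul, mul_inv_cancel, baseFun_one] }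
  map_one' := by
    ext1 p
    exact baseFun_one p
  map_mul' g h := by
    ext1 p
    exact baseFun_mul g h p

theorem base_apply (g : Equiv.Perm (Fin 3)) (p : Finset I × Fin 3) :
    base g p = baseFun g p := rfl

theorem base_injective : Function.Injective (base (I := I)) := by
  intro g h hgh
  ext1 y
  have := congrArg (fun σ : Equiv.Perm (Finset I × Fin 3) => (σ (∅, y)).2) hgh
  simpa [base_apply, baseFun] using this

/-- Elements of level `< i` fix every point whose set contains an element `≥ i`. -/
theorem fixes {i : I} {x : Equiv.Perm (Finset I × Fin 3)}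
    (hx : x ∈ closure (((base (I := I)).range : Set (Equiv.Perm (Finset I × Fin 3))) ∪
      toggle '' Iio i)) :
    ∀ p : Finset I × Fin 3, (∃ a ∈ p.1, i ≤ a) → x p = p := by
  refine closure_induction (p := fun x _ => ∀ p : Finset I × Fin 3, (∃ a ∈ p.1, i ≤ a) → x p = p)
    ?_ ?_ ?_ ?_ hx
  · rintro _ (⟨g, rfl⟩ | ⟨j, hj, rfl⟩) p ⟨a, ha, hia⟩
    · rw [base_apply, baseFun, if_neg]
      intro h
      rw [h] at ha
      simp at ha
    · rw [toggle_apply, toggleFun, if_neg]
      intro h
      exact absurd (h a ha) (not_le.2 (lt_of_lt_of_le hj hia))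
  · intro p _; rfl
  · intro x y _ _ hx hy p hp
    rw [Equiv.Perm.mul_apply, hy p hp, hx p hp]
  · intro x _ hx p hp
    rw [Equiv.Perm.inv_eq_iff_eq, hx p hp]

/-- The tower inside the full permutation group. -/
theorem tower_perm : Tower (base (I := I)).range (toggle (I := I)) where
  inv i := by
    ext1 p
    exact toggle_invol i p
  comm i x hx y hy := by
    have hdisj : Equiv.Perm.Disjoint x (toggle i * y * toggle i) := by
      intro p
      by_cases hp : ∃ a ∈ p.1, i ≤ a
      · exact Or.inl (fixes hx p hp)
      · right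
        push Not at hp
        have h1 : ∀ a ∈ p.1, a ≤ i := fun a ha => (hp a ha).le
        have h2 : toggle i p = (symmDiff p.1 {i}, p.2) := by
          rw [toggle_apply, toggleFun, if_pos h1]
        have h3 : y (toggle i p) = toggle i p := by
          refine fixes hy _ ⟨i, ?_, le_rfl⟩
          rw [h2]
          simp only [Finset.mem_symmDiff, Finset.mem_singleton, true_and, not_true_eq_false,
            and_false, false_or]
          intro hi
          exact absurd (hp i hi) (lt_irrefl i)
        rw [Equiv.Perm.mul_apply, Equiv.Perm.mul_apply, h3]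
        exact toggle_invol i p
    exact hdisj.commute
  finK := by
    rw [MonoidHom.coe_range]
    exact Set.finite_range _
  ntK := by
    refine ⟨base (Equiv.swap 0 1), ⟨_, rfl⟩, ?_⟩
    intro h
    have : base (I := I) (Equiv.swap 0 1) = base 1 := by rw [h, map_one]
    have h2 := base_injective this
    exact absurd h2 (by decide)
  cK := by
    rintro _ ⟨g, rfl⟩ hz
    have key : ∀ g : Equiv.Perm (Fin 3), (∀ h : Equiv.Perm (Fin 3), g * h = h * g) → g = 1 := by
      decide
    rw [key g, map_one]
    intro h
    apply base_injective (I := I)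
    rw [map_mul, map_mul]
    exact hz _ ⟨h, rfl⟩

end perm

section restrict

variable {P : Type*} [Group P] {I : Type*} [LinearOrder I] {K : Subgroup P} {d : I → P}

/-- The group generated by the tower. -/
def G (K : Subgroup P) (d : I → P) : Subgroup P := closure ((K : Set P) ∪ range d)

/-- The generating involutions as elements of the generated group. -/
def dG (K : Subgroup P) (d : I → P) (i : I) : G K d :=
  ⟨d i, subset_closure (Or.inr ⟨i, rfl⟩)⟩

theorem K_le_G : K ≤ G K d := fun _ hk => subset_closure (Or.inl hk)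

theorem coe_mem {J : Set I} {x : G K d}
    (hx : x ∈ closure (((K.subgroupOf (G K d) : Subgroup (G K d)) : Set (G K d)) ∪
      dG K d '' J)) : (x : P) ∈ closure ((K : Set P) ∪ d '' J) := by
  refine closure_induction
    (p := fun (x : G K d) _ => (x : P) ∈ closure ((K : Set P) ∪ d '' J)) ?_ ?_ ?_ ?_ hx
  · rintro x (hx | ⟨j, hj, rfl⟩)
    · exact subset_closure (Or.inl (mem_subgroupOf.1 hx))
    · exact subset_closure (Or.inr ⟨j, hj, rfl⟩)
  · exact one_mem _
  · intro x y _ _ hx hy
    exact mul_mem hx hy
  · intro x _ hx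
    exact inv_mem hx

theorem tower_restrict (T : Tower K d) : Tower (K.subgroupOf (G K d)) (dG K d) where
  inv i := Subtype.ext (T.inv i)
  comm i x hx y hy := Subtype.ext (T.comm i x (coe_mem hx) y (coe_mem hy))
  finK := by
    have : ((K.subgroupOf (G K d) : Subgroup (G K d)) : Set (G K d)) =
        Subtype.val ⁻¹' (K : Set P) := rfl
    rw [this]
    exact T.finK.preimage Subtype.val_injective.injOn
  ntK := by
    obtain ⟨k, hk, hk1⟩ := T.ntK
    refine ⟨⟨k, K_le_G hk⟩, mem_subgroupOf.2 hk, ?_⟩
    intro h
    exact hk1 (congrArg Subtype.val h)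
  cK z hz hc := by
    apply Subtype.ext
    refine T.cK z (mem_subgroupOf.1 hz) fun k hk => ?_
    exact congrArg Subtype.val (hc ⟨k, K_le_G hk⟩ (mem_subgroupOf.2 hk))

theorem top_restrict : L (K.subgroupOf (G K d)) (dG K d) univ = ⊤ := by
  have h : closure ((Subtype.val ⁻¹' ((K : Set P) ∪ range d) : Set (G K d))) = ⊤ :=
    closure_closure_coe_preimage (k := (K : Set P) ∪ range d)
  rw [eq_top_iff, ← h]
  unfold L
  apply Subgroup.closure_mono
  rintro x (hx | ⟨i, hi⟩)
  · exact Or.inl (mem_subgroupOf.2 hx)
  · exact Or.inr ⟨i, mem_univ i, Subtype.ext hi⟩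

end restrict

/-- The index set: the first uncountable ordinal. -/
abbrev W : Type := (Ordinal.omega 1).ToType

theorem W_bound (s : ℕ → W) : ∃ u, ∀ k, s k < u := by
  have h : ¬ IsCofinal (range s) := by
    intro hcof
    have h1 := Order.cof_le hcof
    have h2 : Cardinal.mk (range s) ≤ Cardinal.aleph0 := Cardinal.mk_range_le.trans (by simp)
    have h3 : Order.cof W = Cardinal.aleph 1 := by
      rw [Ordinal.cof_toType, Cardinal.cof_omega_one]
    rw [h3] at h1
    exact absurd (h1.trans h2) (not_le.2 Cardinal.aleph0_lt_aleph_one)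
  obtain ⟨u, hu⟩ := not_isCofinal_iff.1 h
  exact ⟨u, fun k => hu _ ⟨k, rfl⟩⟩

instance : Nonempty W := by
  rw [Ordinal.nonempty_toType_iff]
  exact (Ordinal.omega_pos 1).ne'

instance : NoMaxOrder W := ⟨fun a => by
  obtain ⟨u, hu⟩ := W_bound fun _ => a
  exact ⟨u, hu 0⟩⟩

/-- The counterexample group. -/
abbrev Grp : Type := G (base (I := W)).range (toggle (I := W))

theorem towerGrp : Tower ((base (I := W)).range.subgroupOf (G (base (I := W)).range toggle))
    (dG (base (I := W)).range toggle) := tower_restrict tower_perm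

theorem fdc_Grp : FiniteDoubleCentralizers Grp := fdc towerGrp top_restrict

theorem not_closed_Grp {n : ℕ} (hn : 2 ≤ n) :
    ¬ @IsClosed Grp (semiZariski Grp) (boundedDC Grp n) := by
  obtain ⟨s, hs⟩ := Nat.exists_strictMono W
  exact not_closed towerGrp top_restrict s hs hn

theorem not_sigma_discrete_Grp {n : ℕ} (hn : 2 ≤ n) :
    ¬ ∃ D : ℕ → Set Grp, boundedDC Grp n = ⋃ k, D k ∧
      ∀ k, @IsDiscrete Grp (semiZariski Grp) (D k) :=
  not_sigma_discrete towerGrp top_restrict W_bound hn

end Pool.Agent.H69.Omega1Group
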