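import Pool.Agent.H69.Young2

/-!
# The abstract contradiction
-/

namespace Pool.Agent.H69.SemiL1

open MeasureTheory Set Metric Filter Topology Complex Pool.Agent.H69.Young
open scoped NNReal ENNReal FourierTransform Real ComplexConjugate

attribute [local instance] Young.instMS Young.instBS

noncomputable section

/-- Continuous functions avoiding the zeros of the cosine oscillate less than `π`. -/
theorem osc {g : ℝ → ℝ} {S : Set ℝ} (hS : IsPreconnected S) (hg : ContinuousOn g S)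
    (hc : ∀ x ∈ S, Real.cos (g x) ≠ 0) {x y : ℝ} (hx : x ∈ S) (hy : y ∈ S) : |g x - g y| < π := by
  have key : ∀ x y, x ∈ S → y ∈ S → g y < g x + π := by
    intro x y hx hy
    by_contra h
    push Not at h
    have h1 := hS.intermediate_value hx hy hg
    have hpi := Real.pi_pos
    set k : ℤ := ⌈(g x - π / 2) / π⌉ with hk
    have h2 : (g x - π / 2) / π ≤ k := Int.le_ceil _
    have h3 : (k : ℝ) < (g x - π / 2) / π + 1 := Int.ceil_lt_add_one _
    have h4 : g x - π / 2 ≤ k * π := by rwa [div_le_iff₀ hpi] at h2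
    have h5 : (k : ℝ) * π < g x - π / 2 + π := by
      have := mul_lt_mul_of_pos_right h3 hpi
      rwa [add_mul, div_mul_cancel₀ _ hpi.ne', one_mul] at this
    obtain ⟨z, hz, hz2⟩ := h1 (show π / 2 + k * π ∈ Icc (g x) (g y) from ⟨by linarith, by linarith⟩)
    apply hc z hz
    rw [hz2, Real.cos_add_int_mul_pi, Real.cos_pi_div_two, mul_zero]
  rw [abs_lt]
  constructor
  · linarith [key x y hx hy]
  · linarith [key y x hy hx]

/-- Phase increments. -/
theorem norm_cexp (y : ℝ) (z : ℂ) : ‖cexp (-(y * z) * I)‖ = Real.exp (y * z.im) := by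
  rw [Complex.norm_exp]
  congr 1
  simp

theorem re_cexp (y : ℝ) (z : ℂ) :
    (cexp (-(y * z) * I)).re = Real.exp (y * z.im) * Real.cos (y * z.re) := by
  rw [Complex.exp_re]
  congr 1
  · congr 1; simp
  · rw [← Real.cos_neg]; congr 1; simp

theorem int_exp_bound {D : ℂ} (hD : D ≠ 0) :
    ‖∫ y in (0:ℝ)..(1 / 2), cexp (-(y * D) * I)‖ ≤ (‖cexp (-((1 / 2 : ℝ) * D) * I)‖ + 1) / ‖D‖ := by
  have hc : (-D * I : ℂ) ≠ 0 := by simp [hD]
  have h := integral_exp_mul_complex (a := 0) (b := 1 / 2) hc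
  have e : (fun y : ℝ => cexp (-(y * D) * I)) = fun y : ℝ => cexp (-D * I * y) := by
    ext y; congr 1; ring
  rw [e, h, norm_div]
  have e2 : ‖-D * I‖ = ‖D‖ := by simp
  rw [e2]
  gcongr
  refine (norm_sub_le _ _).trans ?_
  have e3 : (-D * I * ((1 / 2 : ℝ) : ℂ)) = -((1 / 2 : ℝ) * D) * I := by ring
  rw [e3]
  simp

variable {ψ : ℝ → ℂ} {Ω : Set ℝ} {M : ℝ} {φ : ℝ → ℂ}

theorem M_ge_one (hne : Ω.Nonempty)
    (hM : ∀ ξ ∈ Ω, ∀ y : ℝ, |y| ≤ 1 / 2 → ‖cexp (-(y * ψ ξ) * I)‖ ≤ M) : 1 ≤ M := by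
  obtain ⟨ξ, hξ⟩ := hne
  have := hM ξ hξ 0 (by simp)
  simpa using this

theorem lower (hM : ∀ ξ ∈ Ω, ∀ y : ℝ, |y| ≤ 1 / 2 → ‖cexp (-(y * ψ ξ) * I)‖ ≤ M)
    {ξ : ℝ} (hξ : ξ ∈ Ω) {y : ℝ} (hy : |y| ≤ 1 / 2) : 1 / M ≤ ‖cexp (-(y * ψ ξ) * I)‖ := by
  have hM1 := M_ge_one ⟨ξ, hξ⟩ hM
  have hM0 : 0 < M := by linarith
  have h := hM ξ hξ (-y) (by rwa [abs_neg])
  have e : cexp (-((-y : ℝ) * ψ ξ) * I) = (cexp (-(y * ψ ξ) * I))⁻¹ := by
    rw [← Complex.exp_neg]; congr 1; push_cast; ring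
  rw [e, norm_inv] at h
  rw [one_div]
  exact inv_le_of_inv_le₀ (norm_pos_iff.mpr (Complex.exp_ne_zero _)) h

theorem full (hΩ : IsOpen Ω) (hne : Ω.Nonempty) (hψ : ContinuousOn ψ Ω)
    (hM : ∀ ξ ∈ Ω, ∀ y : ℝ, |y| ≤ 1 / 2 → ‖cexp (-(y * ψ ξ) * I)‖ ≤ M)
    (hR : ∀ y : ℝ, |y| ≤ 1 / 2 → ∃ σ : Measure KK, IsFiniteMeasure σ ∧
      Rep σ (Ω.indicator fun ξ => cexp (-(y * ψ ξ) * I)))
    (hφc : Continuous φ)
    (hφΩ : ∀ ξ ∈ Ω, φ ξ = cexp (-ψ ξ)) (hφn : ∀ ξ ∉ Ω, φ ξ = 0) : Ω = univ := by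
  by_contra hcon
  have h0 : frontier Ω ≠ ∅ := by
    intro h
    rcases isClopen_iff.mp (isClopen_iff_frontier_eq_empty.mpr h) with h | h
    · exact hne.ne_empty h
    · exact hcon h
  obtain ⟨ξ0, hξ0⟩ := nonempty_iff_ne_empty.mpr h0
  have h1 : ξ0 ∉ Ω := fun h => by
    have := hΩ.inter_frontier_eq
    have h2 : ξ0 ∈ Ω ∩ frontier Ω := ⟨h, hξ0⟩
    rw [this] at h2
    exact h2
  obtain ⟨x, hx, hxlim⟩ := mem_closure_iff_seq_limit.mp hξ0.1
  have hM1 := M_ge_one hne hM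
  have hre : Tendsto (fun n => (ψ (x n)).re) atTop atTop := by
    have h2 : Tendsto (fun n => ‖φ (x n)‖) atTop (𝓝 0) := by
      have := ((hφc.tendsto ξ0).comp hxlim).norm
      rw [hφn ξ0 h1, norm_zero] at this
      exact this
    have h3 : ∀ n, ‖φ (x n)‖ = Real.exp (-(ψ (x n)).re) := by
      intro n
      rw [hφΩ _ (hx n), Complex.norm_exp]; simp
    simp_rw [h3] at h2
    rw [Real.tendsto_exp_comp_nhds_zero, tendsto_neg_atBot_iff] at h2
    exact h2
  -- pointwise limits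
  have hlim : ∀ y : ℝ, |y| ≤ 1 / 2 → ∃ z : ℂ, 1 / M ≤ ‖z‖ ∧ ‖z‖ ≤ M ∧
      Tendsto (fun n => cexp (-(y * ψ (x n)) * I)) atTop (𝓝 z) := by
    intro y hy
    obtain ⟨σ, hσ, hrep⟩ := hR y hy
    have hc : ContinuousOn (fun ξ => cexp (-(y * ψ ξ) * I)) Ω := by fun_prop
    have hmeas : Measurable (Ω.indicator fun ξ => cexp (-(y * ψ ξ) * I)) := by
      classical
      rw [← piecewise_eq_indicator]
      exact hc.measurable_piecewise continuousOn_const hΩ.measurableSet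
    have hcont : ∀ n, ContinuousAt (Ω.indicator fun ξ => cexp (-(y * ψ ξ) * I)) (x n) := by
      intro n
      have h2 : ContinuousAt (fun ξ => cexp (-(y * ψ ξ) * I)) (x n) :=
        hc.continuousAt (hΩ.mem_nhds (hx n))
      refine h2.congr ?_
      filter_upwards [hΩ.mem_nhds (hx n)] with ξ hξ
      rw [indicator_of_mem hξ]
    have heq : ∀ n, cexp (-(y * ψ (x n)) * I) = Psi σ (x n) := by
      intro n
      rw [← eq_Psi hrep hmeas (hcont n), indicator_of_mem (hx n)]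
    have hlim : Tendsto (fun n => cexp (-(y * ψ (x n)) * I)) atTop (𝓝 (Psi σ ξ0)) := by
      simp_rw [heq]
      exact ((uniformContinuous_Psi σ).continuous.tendsto ξ0).comp hxlim
    refine ⟨Psi σ ξ0, ?_, ?_, hlim⟩
    · exact ge_of_tendsto' hlim.norm fun n => lower hM (hx n) hy
    · exact le_of_tendsto' hlim.norm fun n => hM _ (hx n) y hy
  choose! z hz1 hz2 hz3 using hlim
  have hy : ∀ y ∈ Ioc (0:ℝ) (1 / 2), |y| ≤ 1 / 2 := by
    intro y hy
    rw [abs_of_pos hy.1]; exact hy.2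
  have hMpos : 0 < M := by linarith
  -- the quotient integrals
  have hq : ∀ n, ∫ y in Ioc (0:ℝ) (1 / 2), z y * cexp (-(y * (-ψ (x n))) * I) = 0 := by
    intro n
    have h2 : Tendsto (fun m => ∫ y in Ioc (0:ℝ) (1 / 2),
        cexp (-(y * ψ (x m)) * I) * cexp (-(y * (-ψ (x n))) * I)) atTop
        (𝓝 (∫ y in Ioc (0:ℝ) (1 / 2), z y * cexp (-(y * (-ψ (x n))) * I))) := by
      refine tendsto_integral_of_dominated_convergence (fun _ => M * M) (fun m => ?_)
        (integrableOn_const (by simp)) (fun m => ?_) ?_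
      · apply Continuous.aestronglyMeasurable
        fun_prop
      · refine (ae_restrict_iff' measurableSet_Ioc).mpr (ae_of_all _ fun y hy' => ?_)
        rw [norm_mul]
        refine mul_le_mul (hM _ (hx m) y (hy y hy')) ?_ (norm_nonneg _) hMpos.le
        have := hM _ (hx n) (-y) (by rw [abs_neg]; exact hy y hy')
        have e : (-((-y : ℝ) * ψ (x n)) * I : ℂ) = -(y * (-ψ (x n))) * I := by push_cast; ring
        rwa [e] at this
      · refine (ae_restrict_iff' measurableSet_Ioc).mpr (ae_of_all _ fun y hy' => ?_)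
        exact (hz3 y (hy y hy')).mul_const _
    refine tendsto_nhds_unique h2 ?_
    have h3 : ∀ m, ∫ y in Ioc (0:ℝ) (1 / 2),
        cexp (-(y * ψ (x m)) * I) * cexp (-(y * (-ψ (x n))) * I) =
        ∫ y in (0:ℝ)..(1 / 2), cexp (-(y * (ψ (x m) - ψ (x n))) * I) := by
      intro m
      rw [intervalIntegral.integral_of_le (by norm_num)]
      congr 1
      ext y
      rw [← Complex.exp_add]
      congr 1
      ring
    simp_rw [h3]
    have h4 : Tendsto (fun m => ‖ψ (x m) - ψ (x n)‖) atTop atTop := by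
      refine tendsto_atTop_mono (fun m => ?_) (tendsto_atTop_add_const_right _ (-(ψ (x n)).re) hre)
      refine le_trans ?_ (Complex.abs_re_le_norm _)
      rw [sub_re]
      exact le_abs_self _
    have h5 : Tendsto (fun m => (M * M + 1) / ‖ψ (x m) - ψ (x n)‖) atTop (𝓝 0) :=
      h4.const_div_atTop _
    rw [tendsto_zero_iff_norm_tendsto_zero]
    refine squeeze_zero' (Eventually.of_forall fun _ => norm_nonneg _) ?_ h5
    filter_upwards [h4.eventually_gt_atTop 0] with m hm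
    refine (int_exp_bound (norm_pos_iff.mp hm)).trans ?_
    gcongr
    have e : cexp (-((1 / 2 : ℝ) * (ψ (x m) - ψ (x n))) * I) =
        cexp (-((1 / 2 : ℝ) * ψ (x m)) * I) * cexp (-((-(1 / 2) : ℝ) * ψ (x n)) * I) := by
      rw [← Complex.exp_add]; congr 1; push_cast; ring
    rw [e, norm_mul]
    refine mul_le_mul (hM _ (hx m) _ ?_) (hM _ (hx n) _ ?_) (norm_nonneg _) hMpos.le
    · rw [abs_of_pos] <;> norm_num
    · rw [abs_neg, abs_of_pos] <;> norm_num
  have h2 : Tendsto (fun n => ∫ y in Ioc (0:ℝ) (1 / 2), z y * cexp (-(y * (-ψ (x n))) * I)) atTop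
      (𝓝 (∫ y in Ioc (0:ℝ) (1 / 2), (1:ℂ))) := by
    have hzm : AEStronglyMeasurable z (volume.restrict (Ioc (0:ℝ) (1 / 2))) := by
      refine aestronglyMeasurable_of_tendsto_ae atTop
        (f := fun n y => cexp (-((y : ℝ) * ψ (x n)) * I)) (fun n => ?_) ?_
      · apply Continuous.aestronglyMeasurable
        fun_prop
      · refine (ae_restrict_iff' measurableSet_Ioc).mpr (ae_of_all _ fun y hy' => ?_)
        exact hz3 y (hy y hy')
    refine tendsto_integral_of_dominated_convergence (fun _ => M * M) (fun m => ?_)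
        (integrableOn_const (by simp)) (fun m => ?_) ?_
    · refine hzm.mul ?_
      apply Continuous.aestronglyMeasurable
      fun_prop
    · refine (ae_restrict_iff' measurableSet_Ioc).mpr (ae_of_all _ fun y hy' => ?_)
      rw [norm_mul]
      refine mul_le_mul (hz2 y (hy y hy')) ?_ (norm_nonneg _) hMpos.le
      have := hM _ (hx m) (-y) (by rw [abs_neg]; exact hy y hy')
      have e : (-((-y : ℝ) * ψ (x m)) * I : ℂ) = -(y * (-ψ (x m))) * I := by push_cast; ring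
      rwa [e] at this
    · refine (ae_restrict_iff' measurableSet_Ioc).mpr (ae_of_all _ fun y hy' => ?_)
      have hzne : z y ≠ 0 := by
        rw [← norm_pos_iff]
        exact lt_of_lt_of_le (by positivity) (hz1 y (hy y hy'))
      have h3 := (hz3 y (hy y hy')).inv₀ hzne
      have h4 := h3.const_mul (z y)
      rw [mul_inv_cancel₀ hzne] at h4
      refine h4.congr fun n => ?_
      rw [← Complex.exp_neg]
      congr 2
      ring
  simp_rw [hq] at h2
  have h3 := tendsto_nhds_unique h2 tendsto_const_nhds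
  rw [setIntegral_const] at h3
  simp at h3

/-- Bounded increments of the exponent. -/
theorem increments (hψ : Continuous ψ)
    (hM : ∀ ξ ∈ (univ : Set ℝ), ∀ y : ℝ, |y| ≤ 1 / 2 → ‖cexp (-(y * ψ ξ) * I)‖ ≤ M)
    (hR : ∀ y : ℝ, |y| ≤ 1 / 2 → ∃ σ : Measure KK, IsFiniteMeasure σ ∧
      Rep σ (fun ξ => cexp (-(y * ψ ξ) * I))) :
    ∀ L : ℕ, ∃ C : ℝ, 0 ≤ C ∧ ∀ ξ η : ℝ, |η - ξ| ≤ L → ‖ψ η - ψ ξ‖ ≤ C := by
  have hM1 := M_ge_one ⟨0, mem_univ _⟩ hM
  have hM0 : 0 < M := by linarith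
  have hpi := Real.pi_pos
  obtain ⟨σ, hσ, hrep⟩ := hR (1 / 2) (by rw [abs_of_pos] <;> norm_num)
  set F : ℝ → ℂ := fun ξ => cexp (-((1 / 2 : ℝ) * ψ ξ) * I) with hFdef
  have hFc : Continuous F := by rw [hFdef]; fun_prop
  have hF : F = Psi σ := by
    ext ξ
    exact eq_Psi hrep hFc.measurable hFc.continuousAt
  have hU : UniformContinuous F := by rw [hF]; exact uniformContinuous_Psi σ
  obtain ⟨δ, hδ, hd⟩ := Metric.uniformContinuous_iff.mp hU (1 / M) (by positivity)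
  have hlow : ∀ ξ, 1 / M ≤ ‖F ξ‖ := fun ξ => lower hM (mem_univ ξ) (by rw [abs_of_pos] <;> norm_num)
  -- real part increments over short distances
  have hstep : ∀ x x' : ℝ, |x - x'| < δ → |(ψ x).re - (ψ x').re| < 2 * π := by
    intro x x' hxx
    have hS : IsPreconnected (ball x' δ) := (convex_ball x' δ).isPreconnected
    have hcos : ∀ z ∈ ball x' δ, Real.cos ((1 / 2 : ℝ) * (ψ z - ψ x').re) ≠ 0 := by
      intro z hz
      have h1 := hd hz
      have h2 : 0 < (F z / F x').re := by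
        have h3 : ‖F z / F x' - 1‖ < 1 := by
          have hne : F x' ≠ 0 := by rw [hFdef]; exact Complex.exp_ne_zero _
          rw [div_sub_one hne, norm_div, div_lt_one (norm_pos_iff.mpr hne)]
          rw [dist_eq_norm] at h1
          exact lt_of_lt_of_le h1 (hlow x')
        have h4 := (Complex.abs_re_le_norm (F z / F x' - 1)).trans_lt h3
        rw [sub_re, one_re, abs_lt] at h4
        linarith [h4.1]
      have h5 : F z / F x' = cexp (-((1 / 2 : ℝ) * (ψ z - ψ x')) * I) := by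
        rw [hFdef]
        simp only
        rw [← Complex.exp_sub]
        congr 1; ring
      rw [h5, re_cexp] at h2
      intro h6
      rw [h6, mul_zero] at h2
      exact lt_irrefl _ h2
    have h := osc (g := fun z => (1 / 2 : ℝ) * (ψ z - ψ x').re) hS (by fun_prop) hcos
      (x := x) (y := x') (by rw [mem_ball, Real.dist_eq]; exact hxx) (mem_ball_self hδ)
    simp only [sub_self, zero_re, mul_zero, sub_zero, sub_re] at h
    rw [abs_mul, abs_of_pos (by norm_num : (0:ℝ) < 1 / 2)] at h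
    linarith
  -- many steps
  have hmany : ∀ n : ℕ, ∀ x x' : ℝ, |x - x'| ≤ n * (δ / 2) →
      |(ψ x).re - (ψ x').re| ≤ n * (2 * π) := by
    intro n
    induction n with
    | zero =>
      intro x x' h
      have : x = x' := by
        have : |x - x'| ≤ 0 := by simpa using h
        have := abs_nonpos_iff.mp this
        linarith
      subst this; simp
    | succ n ih =>
      intro x x' h
      set y : ℝ := x' + (n / (n + 1)) * (x - x') with hy
      have h1 : y - x' = (n / (n + 1)) * (x - x') := by rw [hy]; ring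
      have h2 : x - y = (1 / (n + 1)) * (x - x') := by rw [hy]; field_simp; ring
      have h3 : |y - x'| ≤ n * (δ / 2) := by
        rw [h1, abs_mul, abs_of_nonneg (by positivity)]
        push_cast at h
        calc (n : ℝ) / (n + 1) * |x - x'| ≤ (n : ℝ) / (n + 1) * ((n + 1) * (δ / 2)) := by gcongr
          _ = n * (δ / 2) := by field_simp
      have h4 : |x - y| < δ := by
        rw [h2, abs_mul, abs_of_nonneg (by positivity)]
        push_cast at h
        calc 1 / ((n : ℝ) + 1) * |x - x'| ≤ 1 / ((n : ℝ) + 1) * ((n + 1) * (δ / 2)) := by gcongr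
          _ = δ / 2 := by field_simp
          _ < δ := by linarith
      have h5 := ih y x' h3
      have h6 := hstep x y h4
      have h7 : (ψ x).re - (ψ x').re = ((ψ x).re - (ψ y).re) + ((ψ y).re - (ψ x').re) := by ring
      rw [h7]
      refine (abs_add_le _ _).trans ?_
      push_cast
      linarith
  -- imaginary part
  have him : ∀ ξ, |(ψ ξ).im| ≤ 2 * Real.log M := by
    intro ξ
    have h1 := hM ξ (mem_univ _) (1 / 2) (by rw [abs_of_pos] <;> norm_num)
    have h2 := hM ξ (mem_univ _) (-(1 / 2)) (by rw [abs_neg, abs_of_pos] <;> norm_num)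
    rw [norm_cexp] at h1 h2
    rw [← Real.le_log_iff_exp_le hM0] at h1 h2
    rw [abs_le]
    constructor <;> linarith
  intro L
  obtain ⟨n, hn⟩ := exists_nat_ge ((L : ℝ) / (δ / 2))
  have hlog : 0 ≤ Real.log M := Real.log_nonneg hM1
  refine ⟨n * (2 * π) + 4 * Real.log M, by positivity, fun ξ η h => ?_⟩
  have h1 : |η - ξ| ≤ n * (δ / 2) := by
    rw [div_le_iff₀ (by positivity)] at hn
    exact h.trans hn
  have h2 := hmany n η ξ h1
  refine (Complex.norm_le_abs_re_add_abs_im _).trans ?_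
  rw [sub_re, sub_im]
  have h3 : |(ψ η).im - (ψ ξ).im| ≤ 4 * Real.log M := by
    refine (abs_sub _ _).trans ?_
    linarith [him η, him ξ]
  linarith

/-- The separation principle: an uncountable family has two close members. -/
theorem exists_close {X : Type*} [MetricSpace X] [TopologicalSpace.SeparableSpace X]
    {T : Set ℝ} (hT : ¬ T.Countable) (G : ℝ → X) {κ : ℝ} (hκ : 0 < κ) :
    ∃ y ∈ T, ∃ y' ∈ T, y ≠ y' ∧ dist (y, G y) (y', G y') < κ := by
  by_contra hcon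
  push Not at hcon
  apply hT
  refine PairwiseDisjoint.countable_of_isOpen (s := fun y => ball (y, G y) (κ / 2)) ?_
    (fun _ _ => isOpen_ball) (fun y _ => ⟨(y, G y), mem_ball_self (by positivity)⟩)
  intro y hy y' hy' hne
  refine ball_disjoint_ball ?_
  have := hcon y hy y' hy' hne
  linarith

theorem A_compare {ψ : ℝ → ℂ} (hψ : Continuous ψ) {M : ℝ} (hM1 : 1 ≤ M)
    (hM : ∀ ξ ∈ (univ : Set ℝ), ∀ y : ℝ, |y| ≤ 1 / 2 → ‖cexp (-(y * ψ ξ) * I)‖ ≤ M)
    {L C : ℝ} (hL : 0 < L) (hC0 : 0 ≤ C) (hC : ∀ ξ η : ℝ, |η - ξ| ≤ L → ‖ψ η - ψ ξ‖ ≤ C)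
    {y y' u u' κ : ℝ} (hy : |y| ≤ 1 / 2) (hy' : |y'| ≤ 1 / 2) (hyy : |y - y'| ≤ κ)
    (hyy2 : |y - y'| ≤ 1 / 2)
    (huu : |u - u'| ≤ κ) (hκ : κ * (C + 2 * π * L) ≤ 1) (ξ : ℝ) :
    ‖A (fun η => cexp (-(y * ψ η) * I)) ξ L u -
      cexp (-((y - y' : ℝ) * ψ ξ) * I + 2 * π * (u - u' : ℝ) * ξ * I) *
        A (fun η => cexp (-(y' * ψ η) * I)) ξ L u'‖ ≤ 2 * (κ * (C + 2 * π * L)) * M ^ 2 := by
  have hpi := Real.pi_pos
  have hM0 : 0 < M := by linarith
  have hκ0 : 0 ≤ κ := (abs_nonneg _).trans hyy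
  set E : ℝ → ℂ := fun η => cexp (-((y - y' : ℝ) * ψ η) * I + 2 * π * (u - u' : ℝ) * η * I) with hE
  have hEn : ∀ η, ‖E η‖ ≤ M := by
    intro η
    rw [hE]
    simp only
    rw [Complex.exp_add, norm_mul, norm_cexp_I, mul_one]
    exact hM η (mem_univ _) _ hyy2
  have hEd : ∀ η, |η - ξ| ≤ L → ‖E η - E ξ‖ ≤ M * (2 * (κ * (C + 2 * π * L))) := by
    intro η hη
    set z : ℂ := -((y - y' : ℝ) * (ψ η - ψ ξ)) * I + 2 * π * (u - u' : ℝ) * (η - ξ : ℝ) * I with hz
    have e : E η - E ξ = E ξ * (cexp z - 1) := by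
      rw [mul_sub, mul_one, hE]
      simp only
      rw [← Complex.exp_add, hz]
      congr 2
      push_cast; ring
    have hzn : ‖z‖ ≤ κ * (C + 2 * π * L) := by
      rw [hz]
      refine (norm_add_le _ _).trans ?_
      have h1 : ‖-((y - y' : ℝ) * (ψ η - ψ ξ)) * I‖ ≤ κ * C := by
        rw [norm_mul, norm_I, mul_one, norm_neg, norm_mul, norm_real, Real.norm_eq_abs]
        exact mul_le_mul hyy (hC ξ η hη) (norm_nonneg _) hκ0
      have h2 : ‖2 * π * (u - u' : ℝ) * (η - ξ : ℝ) * I‖ ≤ κ * (2 * π * L) := by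
        have : (2 * π * (u - u' : ℝ) * (η - ξ : ℝ) * I : ℂ) =
            ((2 * π * (u - u') * (η - ξ) : ℝ) : ℂ) * I := by push_cast; ring
        rw [this, norm_mul, norm_I, mul_one, norm_real, Real.norm_eq_abs, abs_mul, abs_mul, abs_mul,
          abs_of_pos hpi, abs_of_pos (by norm_num : (0:ℝ) < 2)]
        calc 2 * π * |u - u'| * |η - ξ| ≤ 2 * π * κ * L := by gcongr
          _ = κ * (2 * π * L) := by ring
      linarith
    rw [e, norm_mul]
    refine mul_le_mul (hEn ξ) ?_ (norm_nonneg _) hM0.le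
    exact (Complex.norm_exp_sub_one_le (hzn.trans hκ)).trans (by linarith)
  have hcE : Continuous E := by rw [hE]; fun_prop
  unfold A
  rw [mul_left_comm, ← mul_sub, ← intervalIntegral.integral_const_mul,
    ← intervalIntegral.integral_sub (Continuous.intervalIntegrable (by fun_prop) _ _)
      (Continuous.intervalIntegrable (by fun_prop) _ _)]
  have hb : ‖∫ η in ξ..(ξ + L), (cexp (2 * π * u * η * I) * cexp (-(y * ψ η) * I) -
      E ξ * (cexp (2 * π * u' * η * I) * cexp (-(y' * ψ η) * I)))‖ ≤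
      (M * (2 * (κ * (C + 2 * π * L))) * M) * |ξ + L - ξ| := by
    refine intervalIntegral.norm_integral_le_of_norm_le_const fun η hη => ?_
    rw [uIoc_of_le (by linarith)] at hη
    have e : cexp (2 * π * u * η * I) * cexp (-(y * ψ η) * I) =
        E η * (cexp (2 * π * u' * η * I) * cexp (-(y' * ψ η) * I)) := by
      rw [hE]
      simp only
      rw [← Complex.exp_add, ← Complex.exp_add, ← Complex.exp_add]
      congr 1
      push_cast; ring
    rw [e, ← sub_mul, norm_mul, norm_mul, norm_cexp_I, one_mul]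
    refine mul_le_mul (hEd η ?_) (hM η (mem_univ _) y' hy') (norm_nonneg _) (by positivity)
    rw [abs_of_pos (by linarith [hη.1])]
    linarith [hη.2]
  rw [norm_mul, norm_real, Real.norm_of_nonneg (by positivity)]
  rw [add_sub_cancel_left, abs_of_pos hL] at hb
  calc 1 / L * _ ≤ 1 / L * ((M * (2 * (κ * (C + 2 * π * L))) * M) * L) := by gcongr
    _ = _ := by field_simp

theorem core (ψ : ℝ → ℂ) (Ω : Set ℝ) (M : ℝ) (φ : ℝ → ℂ) (hΩ : IsOpen Ω) (hne : Ω.Nonempty)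
    (hψ : ContinuousOn ψ Ω)
    (hM : ∀ ξ ∈ Ω, ∀ y : ℝ, |y| ≤ 1 / 2 → ‖cexp (-(y * ψ ξ) * I)‖ ≤ M)
    (hR : ∀ y : ℝ, |y| ≤ 1 / 2 → ∃ σ : Measure KK, IsFiniteMeasure σ ∧
      Rep σ (Ω.indicator fun ξ => cexp (-(y * ψ ξ) * I)))
    (hφc : Continuous φ) (hφ0 : Tendsto φ (cocompact ℝ) (𝓝 0))
    (hφΩ : ∀ ξ ∈ Ω, φ ξ = cexp (-ψ ξ)) (hφn : ∀ ξ ∉ Ω, φ ξ = 0) : False := by
  obtain rfl := full hΩ hne hψ hM hR hφc hφΩ hφn
  simp only [indicator_univ] at hR
  rw [continuousOn_univ] at hψ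
  have hpi := Real.pi_pos
  have hM1 := M_ge_one hne hM
  have hM0 : 0 < M := by linarith
  have hinc := increments hψ hM hR
  have hlow : ∀ ξ y : ℝ, |y| ≤ 1 / 2 → 1 / M ≤ ‖cexp (-(y * ψ ξ) * I)‖ :=
    fun ξ y hy => lower hM (mem_univ ξ) hy
  -- atoms and windows
  have hdata : ∀ y ∈ Ioo (0:ℝ) (1 / 2), ∃ (n k : ℕ) (u : ℝ) (m : ℂ), 1 / ((k : ℝ) + 1) ≤ ‖m‖ ∧
      ∀ ξ : ℝ, ‖A (fun η => cexp (-(y * ψ η) * I)) ξ (n + 1) u - m‖ ≤ ‖m‖ / (10 * M) := by
    intro y hy
    have hy2 : |y| ≤ 1 / 2 := by rw [abs_of_pos hy.1]; exact hy.2.le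
    obtain ⟨σ, hσ, hrep⟩ := hR y hy2
    have hc : Continuous fun ξ => cexp (-(y * ψ ξ) * I) := by fun_prop
    obtain ⟨u, hu⟩ := exists_atom hrep hc.measurable (M := M) (c := 1 / M)
      (fun ξ => hM ξ (mem_univ _) y hy2) (by positivity) (fun ξ => hlow ξ y hy2)
    have hmpos : 0 < ‖atom σ u‖ := norm_pos_iff.mpr hu
    obtain ⟨k, hk⟩ := exists_nat_one_div_lt hmpos
    obtain ⟨e, he, hb⟩ := window hrep u
    have h1 : ∀ᶠ n in atTop, e n < ‖atom σ u‖ / (10 * M) :=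
      he.eventually_lt_const (by positivity)
    obtain ⟨n, hn⟩ := h1.exists
    exact ⟨n, k, u, atom σ u, hk.le, fun ξ => (hb n ξ).trans hn.le⟩
  choose! N K U mm hK hA using hdata
  -- pigeonhole
  obtain ⟨n, k, hT⟩ : ∃ n k : ℕ, ¬ {y | y ∈ Ioo (0:ℝ) (1 / 2) ∧ N y = n ∧ K y = k}.Countable := by
    by_contra hcon
    push Not at hcon
    have h1 : (Ioo (0:ℝ) (1 / 2)).Countable := by
      have h2 : Ioo (0:ℝ) (1 / 2) ⊆ ⋃ n : ℕ, ⋃ k : ℕ,
          {y | y ∈ Ioo (0:ℝ) (1 / 2) ∧ N y = n ∧ K y = k} := by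
        intro y hy
        simp only [mem_iUnion]
        exact ⟨N y, K y, hy, rfl, rfl⟩
      exact (countable_iUnion fun n => countable_iUnion fun k => hcon n k).mono h2
    rw [Cardinal.Real.Ioo_countable_iff] at h1
    norm_num at h1
  obtain ⟨C, hC0, hC⟩ := hinc (n + 1)
  set L : ℝ := (n : ℝ) + 1 with hLdef
  have hL : 0 < L := by positivity
  set K1 : ℝ := C + 2 * π * L with hK1
  have hK1pos : 0 < K1 := by positivity
  set d : ℝ := 2 * K1 * M ^ 2 + M + 1 with hd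
  have hdpos : 0 < d := by positivity
  set κ : ℝ := min (1 / 2) (min (1 / K1) (3 / 10 / ((k : ℝ) + 1) / d)) with hκ
  have hκpos : 0 < κ := by positivity
  obtain ⟨y, hy, y', hy', hyne, hclose⟩ := exists_close hT (fun y => (U y, mm y)) hκpos
  obtain ⟨hyI, hyN, hyK⟩ := hy
  obtain ⟨hyI', hyN', hyK'⟩ := hy'
  rw [Prod.dist_eq, max_lt_iff, Prod.dist_eq, max_lt_iff] at hclose
  obtain ⟨hc1, hc2, hc3⟩ := hclose
  simp only at hc1 hc2 hc3
  rw [Real.dist_eq] at hc1 hc2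
  rw [dist_eq_norm] at hc3
  have hκ1 : κ ≤ 1 / 2 := min_le_left _ _
  have hκ2 : κ ≤ 1 / K1 := (min_le_right _ _).trans (min_le_left _ _)
  have hκ3 : κ ≤ 3 / 10 / ((k : ℝ) + 1) / d := (min_le_right _ _).trans (min_le_right _ _)
  have hκ2' : κ * K1 ≤ 1 := by rwa [le_div_iff₀ hK1pos] at hκ2
  have hκ3' : κ * d ≤ 3 / 10 / ((k : ℝ) + 1) := by rwa [le_div_iff₀ hdpos] at hκ3
  have hy2 : |y| ≤ 1 / 2 := by rw [abs_of_pos hyI.1]; exact hyI.2.le
  have hy2' : |y'| ≤ 1 / 2 := by rw [abs_of_pos hyI'.1]; exact hyI'.2.le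
  have hA1 := hA y hyI
  have hA2 := hA y' hyI'
  have hK2 := hK y hyI
  rw [hyN] at hA1
  rw [hyN'] at hA2
  rw [hyK] at hK2
  set m := mm y with hm
  set m' := mm y' with hm'
  have hmpos : 0 < ‖m‖ := lt_of_lt_of_le (by positivity) hK2
  have hCL : ∀ ξ η : ℝ, |η - ξ| ≤ L → ‖ψ η - ψ ξ‖ ≤ C := by
    intro ξ η h
    refine hC ξ η ?_
    rw [hLdef] at h
    push_cast
    exact h
  set θ : ℝ → ℝ := fun ξ => -((y - y') * (ψ ξ).re) + 2 * π * (U y - U y') * ξ with hθ
  have hcosθ : ∀ ξ ∈ (univ : Set ℝ), Real.cos (θ ξ) ≠ 0 := by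
    intro ξ _
    set E : ℂ := cexp (-((y - y' : ℝ) * ψ ξ) * I + 2 * π * (U y - U y' : ℝ) * ξ * I) with hE
    have hEn : ‖E‖ ≤ M := by
      rw [hE, Complex.exp_add, norm_mul, norm_cexp_I, mul_one]
      exact hM ξ (mem_univ _) _ (hc1.le.trans hκ1)
    have hcmp := A_compare hψ hM1 hM hL hC0 hCL hy2 hy2' hc1.le (hc1.le.trans hκ1) hc2.le hκ2' ξ
    rw [← hE] at hcmp
    set A1 := A (fun η => cexp (-(y * ψ η) * I)) ξ L (U y) with hA1def
    set A2 := A (fun η => cexp (-(y' * ψ η) * I)) ξ L (U y') with hA2def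
    have h1 : ‖A1 - m‖ ≤ ‖m‖ / (10 * M) := hA1 ξ
    have h2 : ‖A2 - m'‖ ≤ ‖m'‖ / (10 * M) := hA2 ξ
    have h3 : ‖m - m'‖ ≤ κ := hc3.le
    have h4 : ‖m'‖ ≤ ‖m‖ + κ := by
      have := norm_sub_norm_le m' m
      rw [norm_sub_rev] at this
      linarith
    have h5 : (E - 1) * m = E * (m - m') - E * (A2 - m') - (A1 - E * A2) + (A1 - m) := by ring
    have h6 : ‖(E - 1) * m‖ ≤ M * κ + M * (‖m'‖ / (10 * M)) + 2 * (κ * K1) * M ^ 2 +
        ‖m‖ / (10 * M) := by
      rw [h5]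
      refine (norm_add_le _ _).trans (add_le_add ?_ h1)
      refine (norm_sub_le _ _).trans (add_le_add ?_ hcmp)
      refine (norm_sub_le _ _).trans (add_le_add ?_ ?_)
      · rw [norm_mul]
        exact mul_le_mul hEn h3 (norm_nonneg _) hM0.le
      · rw [norm_mul]
        exact mul_le_mul hEn h2 (norm_nonneg _) hM0.le
    have h7 : M * (‖m'‖ / (10 * M)) = ‖m'‖ / 10 := by field_simp
    have h8 : ‖m‖ / (10 * M) ≤ ‖m‖ / 10 := by
      refine div_le_div_of_nonneg_left (norm_nonneg _) (by norm_num) (by linarith)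
    have h9 : ‖(E - 1) * m‖ ≤ ‖m‖ / 2 := by
      have h10 : κ * d = M * κ + 2 * (κ * K1) * M ^ 2 + κ := by rw [hd]; ring
      have h11 : 3 / 10 / ((k : ℝ) + 1) ≤ 3 / 10 * ‖m‖ := by
        rw [div_eq_mul_one_div (3 / 10 : ℝ)]
        exact mul_le_mul_of_nonneg_left hK2 (by norm_num)
      rw [h7] at h6
      linarith
    have h12 : ‖E - 1‖ ≤ 1 / 2 := by
      rw [norm_mul] at h9
      by_contra hcon
      push Not at hcon
      nlinarith
    have h13 : 0 < E.re := by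
      have := (Complex.abs_re_le_norm (E - 1)).trans h12
      rw [sub_re, one_re, abs_le] at this
      linarith [this.1]
    have h14 : E.re = Real.exp ((y - y') * (ψ ξ).im) * Real.cos (θ ξ) := by
      rw [hE, Complex.exp_re]
      congr 1
      · congr 1; simp
      · rw [hθ]; congr 1; simp
    rw [h14] at h13
    intro h15
    rw [h15, mul_zero] at h13
    exact lt_irrefl _ h13
  have hθc : ContinuousOn θ univ := by
    rw [hθ]
    have : Continuous fun ξ => (ψ ξ).re := Complex.continuous_re.comp hψ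
    fun_prop
  have hosc : ∀ ξ, |θ ξ - θ 0| < π := fun ξ =>
    osc isPreconnected_univ hθc hcosθ (mem_univ _) (mem_univ _)
  -- growth
  have hgrow : Tendsto (fun ξ => (ψ ξ).re) (cocompact ℝ) atTop := by
    have h2 : Tendsto (fun ξ => ‖φ ξ‖) (cocompact ℝ) (𝓝 0) := by
      simpa using hφ0.norm
    have h3 : ∀ ξ, ‖φ ξ‖ = Real.exp (-(ψ ξ).re) := by
      intro ξ
      rw [hφΩ _ (mem_univ _), Complex.norm_exp]; simp
    simp_rw [h3] at h2
    rwa [Real.tendsto_exp_comp_nhds_zero, tendsto_neg_atBot_iff] at h2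
  have hg1 : Tendsto (fun ξ : ℝ => (ψ ξ).re) atTop atTop := hgrow.mono_left atTop_le_cocompact
  have hg2 : Tendsto (fun ξ : ℝ => (ψ (-ξ)).re) atTop atTop :=
    (hgrow.mono_left atBot_le_cocompact).comp tendsto_neg_atTop_atBot
  have hg3 := hg1.atTop_add_atTop hg2
  set B : ℝ := 2 * (ψ 0).re + 2 * π / |y - y'| with hB
  obtain ⟨ξ, hξ⟩ := (hg3.eventually_gt_atTop B).exists
  have h1 := hosc ξ
  have h2 := hosc (-ξ)
  have hpos : 0 < |y - y'| := abs_pos.mpr (sub_ne_zero.mpr hyne)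
  have h3 : |(y - y') * ((ψ ξ).re + (ψ (-ξ)).re - 2 * (ψ 0).re)| < 2 * π := by
    have e : (y - y') * ((ψ ξ).re + (ψ (-ξ)).re - 2 * (ψ 0).re) =
        -((θ ξ - θ 0) + (θ (-ξ) - θ 0)) := by rw [hθ]; simp only; ring
    rw [e, abs_neg]
    refine (abs_add_le _ _).trans_lt ?_
    linarith
  rw [abs_mul] at h3
  have h4 : 2 * π / |y - y'| < (ψ ξ).re + (ψ (-ξ)).re - 2 * (ψ 0).re := by
    rw [hB] at hξ
    linarith
  have h5 : 2 * π < |y - y'| * ((ψ ξ).re + (ψ (-ξ)).re - 2 * (ψ 0).re) := by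
    rw [div_lt_iff₀ hpos] at h4
    linarith
  have h6 := mul_le_mul_of_nonneg_left (le_abs_self ((ψ ξ).re + (ψ (-ξ)).re - 2 * (ψ 0).re)) hpos.le
  linarith

end

end Pool.Agent.H69.SemiL1
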