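import Pool.Agent.H69.SemiL1

/-!
# Analytic semigroups in `L¹(ℝ)`
-/

namespace Pool.Agent.H69.SemiL1

open MeasureTheory Set Metric Filter Topology Complex Pool.Agent.H69.Young
open scoped NNReal ENNReal FourierTransform Real ComplexConjugate ContDiff

attribute [local instance] Young.instMS Young.instBS

noncomputable section

/-- The open right half-plane. -/
abbrev HP : Set ℂ := {t : ℂ | 0 < t.re}

theorem isOpen_HP : IsOpen HP := isOpen_lt continuous_const Complex.continuous_re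

/-- Evaluation of the Fourier transform as a continuous linear functional. -/
def ev (ξ : ℝ) : Lp ℂ 1 (volume : Measure ℝ) →L[ℂ] ℂ :=
  (BoundedContinuousFunction.evalCLM ℂ ξ).comp (Real.Lp.fourierTransformCLM ℝ ℂ)

theorem ev_apply (ξ : ℝ) (f : Lp ℂ 1 (volume : Measure ℝ)) : ev ξ f = 𝓕 (f : ℝ → ℂ) ξ := rfl

theorem norm_ev_le (ξ : ℝ) (f : Lp ℂ 1 (volume : Measure ℝ)) : ‖ev ξ f‖ ≤ ‖f‖ := by
  rw [ev_apply, L1.norm_eq_integral_norm]
  exact norm_fourier_le ξ

theorem continuous_ev (f : Lp ℂ 1 (volume : Measure ℝ)) : Continuous fun ξ => ev ξ f :=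
  continuous_fourier_L1 (L1.integrable_coeFn f)

/-- Injectivity of the Fourier transform on `L¹`. -/
theorem eq_zero_of_fourier {f : Lp ℂ 1 (volume : Measure ℝ)} (h : ∀ ξ, 𝓕 (f : ℝ → ℂ) ξ = 0) :
    f = 0 := by
  have hf : Integrable (f : ℝ → ℂ) := L1.integrable_coeFn f
  rw [Lp.eq_zero_iff_ae_eq_zero]
  refine ae_eq_zero_of_integral_contDiff_smul_eq_zero hf.locallyIntegrable fun g hg hgc => ?_
  have h1 : ContDiff ℝ ∞ fun x => (g x : ℂ) := Complex.ofRealCLM.contDiff.comp hg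
  have h2 : HasCompactSupport fun x => (g x : ℂ) := hgc.comp_left Complex.ofReal_zero
  set G : SchwartzMap ℝ ℂ := h2.toSchwartzMap h1 with hG
  have h3 : ∀ x, G x = g x := fun x => rfl
  set H : SchwartzMap ℝ ℂ := 𝓕⁻ G with hH
  have h4 : 𝓕 H = G := FourierTransform.fourier_fourierInv_eq G
  have h5 : 𝓕 (H : ℝ → ℂ) = G := by rw [← SchwartzMap.fourier_coe, h4]
  have h6 := fourier_flip hf H.integrable
  rw [h5] at h6
  simp_rw [h, mul_zero, integral_zero] at h6
  rw [← h6]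
  congr 1

theorem ev_mul {f g h : Lp ℂ 1 (volume : Measure ℝ)}
    (H : (h : ℝ → ℂ) =ᵐ[volume] fun x => ∫ y, (f : ℝ → ℂ) (x - y) * (g : ℝ → ℂ) y) (ξ : ℝ) :
    ev ξ h = ev ξ f * ev ξ g := by
  rw [ev_apply, ev_apply, ev_apply, Real.fourier_congr_ae H,
    mul_comm, ← Real.fourier_mul_convolution_eq (L1.integrable_coeFn g) (L1.integrable_coeFn f)]
  refine congrArg (fun F : ℝ → ℂ => 𝓕 F ξ) (funext fun x => ?_)
  unfold MeasureTheory.convolution
  refine integral_congr_ae (ae_of_all _ fun y => ?_)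
  simp [mul_comm]

/-- Multiplicative holomorphic functions on the half-plane. -/
theorem mult_zero {f : ℂ → ℂ} (hmul : ∀ s t : ℂ, 0 < s.re → 0 < t.re → f (s + t) = f s * f t)
    (h1 : f 1 = 0) {t : ℂ} (ht : 0 < t.re) : f t = 0 := by
  have h2 : ∀ n : ℕ, f ((1 / 2 : ℝ) ^ n : ℝ) = 0 := by
    intro n
    induction n with
    | zero => simpa using h1
    | succ n ih =>
      have e : (((1 / 2 : ℝ) ^ n : ℝ) : ℂ) = (((1 / 2 : ℝ) ^ (n + 1) : ℝ) : ℂ) +
          (((1 / 2 : ℝ) ^ (n + 1) : ℝ) : ℂ) := by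
        rw [← ofReal_add]; congr 1; rw [pow_succ]; ring
      rw [e, hmul _ _ (by rw [ofReal_re]; positivity) (by rw [ofReal_re]; positivity)] at ih
      exact mul_self_eq_zero.mp ih
  obtain ⟨n, hn⟩ := exists_pow_lt_of_lt_one ht (by norm_num : (1 / 2 : ℝ) < 1)
  have e : t = (t - ((1 / 2 : ℝ) ^ n : ℝ)) + ((1 / 2 : ℝ) ^ n : ℝ) := by ring
  rw [e, hmul _ _ (by rw [sub_re, ofReal_re]; linarith) (by rw [ofReal_re]; positivity), h2,
    mul_zero]

theorem mult_exp {f : ℂ → ℂ} (hol : DifferentiableOn ℂ f HP)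
    (hmul : ∀ s t : ℂ, 0 < s.re → 0 < t.re → f (s + t) = f s * f t)
    (h1 : f 1 ≠ 0) {t : ℂ} (ht : 0 < t.re) : f t = cexp (-(t * (-(deriv f 1 / f 1)))) := by
  set c := deriv f 1 / f 1 with hc
  have hd : ∀ t : ℂ, 0 < t.re → HasDerivAt f (deriv f t) t := fun t ht =>
    (hol.differentiableAt (isOpen_HP.mem_nhds ht)).hasDerivAt
  have hderiv : ∀ t : ℂ, 0 < t.re → deriv f t = c * f t := by
    intro t ht
    have ht1 : 0 < (1 + t).re := by rw [add_re, one_re]; linarith
    -- derivative in the first variable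
    have ha : HasDerivAt (fun s => f (s + t)) (deriv f (1 + t)) 1 := by
      have := hd (1 + t) ht1
      exact this.comp_add_const 1 t
    have hb : HasDerivAt (fun s => f (s + t)) (deriv f 1 * f t) 1 := by
      have h2 : HasDerivAt (fun s => f s * f t) (deriv f 1 * f t) 1 :=
        (hd 1 (by simp)).mul_const (f t)
      refine h2.congr_of_eventuallyEq ?_
      filter_upwards [isOpen_HP.mem_nhds (show (1:ℂ) ∈ HP by simp)] with s hs
      exact hmul s t hs ht
    have hab := ha.unique hb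
    -- derivative in the second variable
    have ha' : HasDerivAt (fun s => f (1 + s)) (deriv f (1 + t)) t := by
      have := hd (1 + t) ht1
      exact this.comp_const_add 1 t
    have hb' : HasDerivAt (fun s => f (1 + s)) (f 1 * deriv f t) t := by
      have h2 : HasDerivAt (fun s => f 1 * f s) (f 1 * deriv f t) t :=
        (hd t ht).const_mul (f 1)
      refine h2.congr_of_eventuallyEq ?_
      filter_upwards [isOpen_HP.mem_nhds ht] with s hs
      exact hmul 1 s (by simp) hs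
    have hab' := ha'.unique hb'
    rw [hab] at hab'
    rw [hc]
    field_simp
    rw [mul_comm (f 1)] at hab'
    linear_combination -hab'
  -- the auxiliary function is constant
  have hconv : Convex ℝ HP := convex_halfSpace_re_gt 0
  have hg : ∀ t ∈ HP, HasDerivWithinAt (fun t => f t * cexp (-(t * c))) 0 HP t := by
    intro t ht
    have h2 : HasDerivAt (fun t => cexp (-(t * c))) (cexp (-(t * c)) * (-c)) t := by
      have h3 : HasDerivAt (fun t : ℂ => -(t * c)) (-c) t := by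
        have := ((hasDerivAt_id t).mul_const c).fun_neg
        simpa using this
      exact h3.cexp
    have h4 := (hd t ht).mul h2
    refine (h4.congr_deriv ?_).hasDerivWithinAt
    rw [hderiv t ht]; ring
  have hconst : ∀ t ∈ HP, f t * cexp (-(t * c)) = f 1 * cexp (-(1 * c)) := by
    intro t ht
    have hb := hconv.norm_image_sub_le_of_norm_hasDerivWithin_le (C := 0) hg
      (fun _ _ => by simp) (show (1:ℂ) ∈ HP by simp) ht
    rw [zero_mul] at hb
    have := norm_le_zero_iff.mp hb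
    exact sub_eq_zero.mp this
  set k := f 1 * cexp (-(1 * c)) with hk
  have hk0 : k ≠ 0 := mul_ne_zero h1 (Complex.exp_ne_zero _)
  have hft : ∀ t ∈ HP, f t = k * cexp (t * c) := by
    intro t ht
    rw [← hconst t ht, mul_assoc, ← Complex.exp_add]; simp
  have hk1 : k = 1 := by
    have h2 := hmul 1 1 (by simp) (by simp)
    rw [hft (1 + 1) (by show 0 < (1 + 1 : ℂ).re; simp), hft 1 (by simp)] at h2
    have h3 : cexp ((1 + 1) * c) = cexp (1 * c) * cexp (1 * c) := by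
      rw [← Complex.exp_add]; congr 1; ring
    rw [h3] at h2
    have h4 : cexp (1 * c) ≠ 0 := Complex.exp_ne_zero _
    have h5 : k * (cexp (1 * c) * cexp (1 * c)) = k * (k * (cexp (1 * c) * cexp (1 * c))) := by
      linear_combination h2
    have h6 := mul_left_cancel₀ hk0 h5
    have h7 : (1:ℂ) * (cexp (1 * c) * cexp (1 * c)) = k * (cexp (1 * c) * cexp (1 * c)) := by
      rw [one_mul]; exact h6
    exact (mul_right_cancel₀ (mul_ne_zero h4 h4) h7).symm
  rw [hft t ht, hk1, one_mul]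
  congr 1; ring

theorem final (a : ℂ → Lp ℂ 1 (volume : Measure ℝ)) (hol : DifferentiableOn ℂ a HP)
    (mul : ∀ s t : ℂ, 0 < s.re → 0 < t.re → (a (s + t) : ℝ → ℂ) =ᵐ[volume]
      fun x => ∫ y, (a s : ℝ → ℂ) (x - y) * (a t : ℝ → ℂ) y)
    (ne : ∃ t : ℂ, 0 < t.re ∧ a t ≠ 0) (M : ℝ)
    (hM : ∀ t : ℂ, 0 < t.re → ‖t‖ ≤ 1 → ‖a t‖ ≤ M) : False := by
  set φ : ℂ → ℝ → ℂ := fun t ξ => ev ξ (a t) with hφ
  have hmul : ∀ ξ, ∀ s t : ℂ, 0 < s.re → 0 < t.re → φ (s + t) ξ = φ s ξ * φ t ξ :=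
    fun ξ s t hs ht => ev_mul (mul s t hs ht) ξ
  have hdiff : ∀ t : ℂ, 0 < t.re → HasDerivAt a (deriv a t) t := fun t ht =>
    (hol.differentiableAt (isOpen_HP.mem_nhds ht)).hasDerivAt
  have hφd : ∀ ξ, ∀ t : ℂ, 0 < t.re → HasDerivAt (fun t => φ t ξ) (ev ξ (deriv a t)) t :=
    fun ξ t ht => (ev ξ).hasFDerivAt.comp_hasDerivAt t (hdiff t ht)
  have hφhol : ∀ ξ, DifferentiableOn ℂ (fun t => φ t ξ) HP := fun ξ t ht =>
    (hφd ξ t ht).differentiableAt.differentiableWithinAt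
  have hcont : ∀ t, Continuous (φ t) := fun t => continuous_ev (a t)
  set Ω : Set ℝ := {ξ | φ 1 ξ ≠ 0} with hΩdef
  have hΩ : IsOpen Ω := isOpen_ne_fun (hcont 1) continuous_const
  set ψ : ℝ → ℂ := fun ξ => -(ev ξ (deriv a 1) / φ 1 ξ) with hψ
  have hψc : ContinuousOn ψ Ω := by
    have h1 : Continuous fun ξ => ev ξ (deriv a 1) := continuous_ev _
    exact (h1.continuousOn.div (hcont 1).continuousOn fun ξ hξ => hξ).neg
  have hexp : ∀ ξ ∈ Ω, ∀ t : ℂ, 0 < t.re → φ t ξ = cexp (-(t * ψ ξ)) := by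
    intro ξ hξ t ht
    have := mult_exp (hφhol ξ) (hmul ξ) hξ ht
    rw [(hφd ξ 1 (by simp)).deriv] at this
    exact this
  have hzero : ∀ ξ ∉ Ω, ∀ t : ℂ, 0 < t.re → φ t ξ = 0 := by
    intro ξ hξ t ht
    have h1 : φ 1 ξ = 0 := by
      by_contra h; exact hξ h
    exact mult_zero (f := fun t => φ t ξ) (hmul ξ) h1 ht
  have hne : Ω.Nonempty := by
    by_contra hcon
    rw [not_nonempty_iff_eq_empty] at hcon
    obtain ⟨t, ht, hat⟩ := ne
    apply hat
    have h1 : ∀ ξ, 𝓕 (a t : ℝ → ℂ) ξ = 0 := by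
      intro ξ
      exact hzero ξ (by rw [hcon]; exact notMem_empty _) t ht
    exact eq_zero_of_fourier h1
  -- approximating sequences
  have hpt : ∀ y : ℝ, |y| ≤ 1 / 2 → ∀ n : ℕ, 0 < (((1 / ((n : ℝ) + 2) : ℝ) : ℂ) + y * I).re ∧
      ‖((1 / ((n : ℝ) + 2) : ℝ) : ℂ) + y * I‖ ≤ 1 := by
    intro y hy n
    have hn : 0 < (n : ℝ) + 2 := by positivity
    constructor
    · simp only [add_re, ofReal_re, mul_re, I_re, mul_zero, ofReal_im, I_im, mul_one, sub_self,
        add_zero]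
      positivity
    · refine (norm_add_le _ _).trans ?_
      rw [norm_mul, norm_I, mul_one, norm_real, norm_real, Real.norm_of_nonneg (by positivity),
        Real.norm_eq_abs]
      have : 1 / ((n : ℝ) + 2) ≤ 1 / 2 := by
        apply one_div_le_one_div_of_le (by norm_num)
        have : (0:ℝ) ≤ n := Nat.cast_nonneg n
        linarith
      linarith
  have hseq : ∀ y : ℝ, Tendsto (fun n : ℕ => ((1 / ((n : ℝ) + 2) : ℝ) : ℂ) + y * I) atTop
      (𝓝 (y * I)) := by
    intro y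
    have h1 : Tendsto (fun n : ℕ => 1 / ((n : ℝ) + 2)) atTop (𝓝 0) := by
      refine squeeze_zero (fun n => by positivity) (fun n => ?_)
        tendsto_one_div_add_atTop_nhds_zero_nat
      apply one_div_le_one_div_of_le (by positivity)
      linarith
    have h2 := ((Complex.continuous_ofReal.tendsto 0).comp h1).add_const (y * I : ℂ)
    simpa [Function.comp_def] using h2
  have hlim : ∀ y : ℝ, |y| ≤ 1 / 2 → ∀ ξ, Tendsto (fun n : ℕ =>
      φ (((1 / ((n : ℝ) + 2) : ℝ) : ℂ) + y * I) ξ) atTop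
      (𝓝 (Ω.indicator (fun ξ => cexp (-(y * ψ ξ) * I)) ξ)) := by
    intro y hy ξ
    by_cases hξ : ξ ∈ Ω
    · rw [indicator_of_mem hξ]
      have h1 : ∀ n : ℕ, φ (((1 / ((n : ℝ) + 2) : ℝ) : ℂ) + y * I) ξ =
          cexp (-((((1 / ((n : ℝ) + 2) : ℝ) : ℂ) + y * I) * ψ ξ)) :=
        fun n => hexp ξ hξ _ (hpt y hy n).1
      simp_rw [h1]
      have h2 : Continuous fun z : ℂ => cexp (-(z * ψ ξ)) := by fun_prop
      have h3 := (h2.tendsto (y * I)).comp (hseq y)
      have e : -((y : ℂ) * ψ ξ) * I = -(y * I * ψ ξ) := by ring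
      rw [e]
      exact h3
    · rw [indicator_of_notMem hξ]
      have h1 : ∀ n : ℕ, φ (((1 / ((n : ℝ) + 2) : ℝ) : ℂ) + y * I) ξ = 0 :=
        fun n => hzero ξ hξ _ (hpt y hy n).1
      simp_rw [h1]
      exact tendsto_const_nhds
  refine core ψ Ω M (φ 1) hΩ hne hψc ?_ ?_ (hcont 1) ?_ ?_ ?_
  · intro ξ hξ y hy
    have h1 := (hlim y hy ξ).norm
    rw [indicator_of_mem hξ] at h1
    exact le_of_tendsto' h1 fun n =>
      (norm_ev_le ξ _).trans (hM _ (hpt y hy n).1 (hpt y hy n).2)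
  · intro y hy
    exact exists_rep (fun n : ℕ => a (((1 / ((n : ℝ) + 2) : ℝ) : ℂ) + y * I)) M
      (fun n => hM _ (hpt y hy n).1 (hpt y hy n).2) _ (hlim y hy)
  · exact Real.zero_at_infty_fourier _
  · intro ξ hξ
    rw [hexp ξ hξ 1 (by simp), one_mul]
  · intro ξ hξ
    exact hzero ξ hξ 1 (by simp)

end

end Pool.Agent.H69.SemiL1
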