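import Mathlib

/-!
# Weak limits of bounded sequences in `L¹(ℝ)`

A bounded sequence of complex `L¹` functions on the line has, along an ultrafilter, a limit which
is represented by a finite positive measure on `OnePoint ℝ × closedBall 0 1`.
-/

namespace Pool.Agent.H69.Young

open MeasureTheory Set Metric Filter Topology OnePoint BoundedContinuousFunction
open scoped NNReal ENNReal FourierTransform

noncomputable section

/-- Borel sigma-algebra on the one-point compactification of the line. -/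
local instance instMS : MeasurableSpace (OnePoint ℝ) := borel _

local instance instBS : BorelSpace (OnePoint ℝ) := ⟨rfl⟩

/-- The unit disc as a compact space. -/
abbrev Disc : Type := closedBall (0 : ℂ) 1

/-- The compact space carrying the limit measures. -/
abbrev KK : Type := OnePoint ℝ × Disc

/-- The phase of a complex number. -/
def phase (z : ℂ) : Disc := ⟨z / ‖z‖, by
  rw [mem_closedBall_zero_iff, norm_div, Complex.norm_real, norm_norm]
  exact div_self_le_one _⟩

theorem measurable_phase : Measurable phase := by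
  apply Measurable.subtype_mk
  exact measurable_id.div (Complex.measurable_ofReal.comp measurable_norm)

theorem norm_smul_phase (z : ℂ) : (‖z‖ : ℂ) * (phase z : ℂ) = z := by
  unfold phase
  by_cases h : z = 0
  · simp [h]
  · have : (‖z‖ : ℂ) ≠ 0 := by simpa using h
    field_simp

/-- The finite measure attached to an `L¹` function. -/
def lift (f : Lp ℂ 1 (volume : Measure ℝ)) : Measure KK :=
  ((volume : Measure ℝ).withDensity fun v => ‖f v‖ₑ).map
    fun v : ℝ => ((v : OnePoint ℝ), phase (f v))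

theorem aemeasurable_liftMap (f : Lp ℂ 1 (volume : Measure ℝ)) (μ : Measure ℝ)
    (hμ : μ ≪ volume) :
    AEMeasurable (fun v : ℝ => ((v : OnePoint ℝ), phase (f v))) μ := by
  have h1 : Measurable (fun v : ℝ => (v : OnePoint ℝ)) := OnePoint.continuous_coe.measurable
  have h2 : AEMeasurable (fun v : ℝ => phase (f v)) μ :=
    measurable_phase.comp_aemeasurable
      ((Lp.aestronglyMeasurable f).aemeasurable.mono_ac hμ)
  exact h1.aemeasurable.prodMk h2

theorem lift_univ (f : Lp ℂ 1 (volume : Measure ℝ)) : lift f univ = ENNReal.ofReal ‖f‖ := by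
  unfold lift
  rw [Measure.map_apply_of_aemeasurable
    (aemeasurable_liftMap f _ (withDensity_absolutelyContinuous _ _)) MeasurableSet.univ]
  rw [preimage_univ, withDensity_apply _ MeasurableSet.univ, Measure.restrict_univ]
  rw [L1.norm_eq_integral_norm, integral_norm_eq_lintegral_enorm (Lp.aestronglyMeasurable f)]
  rw [ENNReal.ofReal_toReal]
  exact (L1.integrable_coeFn f).hasFiniteIntegral.ne

instance (f : Lp ℂ 1 (volume : Measure ℝ)) : IsFiniteMeasure (lift f) :=
  ⟨by rw [lift_univ]; exact ENNReal.ofReal_lt_top⟩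

theorem integral_lift (f : Lp ℂ 1 (volume : Measure ℝ)) (G : C(OnePoint ℝ, ℂ)) :
    ∫ k, G k.1 * (k.2 : ℂ) ∂(lift f) = ∫ v : ℝ, G v * f v := by
  unfold lift
  have hcont : Continuous fun k : KK => G k.1 * (k.2 : ℂ) := by fun_prop
  rw [integral_map (aemeasurable_liftMap f _ (withDensity_absolutelyContinuous _ _))
    hcont.aestronglyMeasurable]
  have h := integral_withDensity_eq_integral_smul₀ (μ := (volume : Measure ℝ))
    (f := fun v => ‖f v‖₊) (Lp.aestronglyMeasurable f).aemeasurable.nnnorm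
    (fun v : ℝ => G (v : OnePoint ℝ) * (phase (f v) : ℂ))
  have e : (fun v => ‖f v‖ₑ) = fun v => ((‖f v‖₊ : ℝ≥0) : ℝ≥0∞) := rfl
  rw [e, h]
  congr 1
  ext v
  rw [NNReal.smul_def, coe_nnnorm, Complex.real_smul]
  calc (‖f v‖ : ℂ) * (G (v : OnePoint ℝ) * (phase (f v) : ℂ))
      = G (v : OnePoint ℝ) * ((‖f v‖ : ℂ) * (phase (f v) : ℂ)) := by ring
    _ = _ := by rw [norm_smul_phase]

/-- Extraction of a limit along the hyperfilter. -/
theorem extraction (f : ℕ → Lp ℂ 1 (volume : Measure ℝ)) (M : ℝ) (hf : ∀ n, ‖f n‖ ≤ M) :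
    ∃ σ : Measure KK, IsFiniteMeasure σ ∧ ∀ G : C(OnePoint ℝ, ℂ),
      Tendsto (fun n => ∫ v : ℝ, G v * f n v) (hyperfilter ℕ)
        (𝓝 (∫ k, G k.1 * (k.2 : ℂ) ∂σ)) := by
  set S : ℕ → FiniteMeasure KK := fun n => ⟨lift (f n), inferInstance⟩ with hS
  have hcomp := isCompact_setOfPred_finiteMeasure_le_of_compactSpace KK (Real.toNNReal M)
  have hmem : ∀ n, S n ∈ {μ : FiniteMeasure KK | μ.mass ≤ Real.toNNReal M} := by
    intro n
    show (lift (f n) univ).toNNReal ≤ Real.toNNReal M
    rw [lift_univ]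
    apply ENNReal.toNNReal_mono ENNReal.coe_ne_top
    exact ENNReal.ofReal_le_ofReal (hf n)
  obtain ⟨σ, _, hσ⟩ := hcomp.ultrafilter_le_nhds' ((hyperfilter ℕ).map S)
    (by rw [Ultrafilter.mem_map]; exact univ_mem' hmem)
  have hσ' : Tendsto S (hyperfilter ℕ) (𝓝 σ) := hσ
  refine ⟨σ, inferInstance, fun G => ?_⟩
  have hcont : Continuous fun k : KK => G k.1 * (k.2 : ℂ) := by fun_prop
  have hint : ∀ μ : Measure KK, IsFiniteMeasure μ → Integrable (fun k : KK => G k.1 * (k.2 : ℂ)) μ := by
    intro μ _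
    exact (BoundedContinuousFunction.mkOfCompact ⟨_, hcont⟩).integrable μ
  rw [FiniteMeasure.tendsto_iff_forall_integral_tendsto] at hσ'
  have hre := hσ' (BoundedContinuousFunction.mkOfCompact ⟨fun k : KK => (G k.1 * (k.2 : ℂ)).re,
    Complex.continuous_re.comp hcont⟩)
  have him := hσ' (BoundedContinuousFunction.mkOfCompact ⟨fun k : KK => (G k.1 * (k.2 : ℂ)).im,
    Complex.continuous_im.comp hcont⟩)
  have key : ∀ μ : Measure KK, IsFiniteMeasure μ → ∫ k, G k.1 * (k.2 : ℂ) ∂μ =
      ((∫ k, (G k.1 * (k.2 : ℂ)).re ∂μ : ℝ) : ℂ) +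
      ((∫ k, (G k.1 * (k.2 : ℂ)).im ∂μ : ℝ) : ℂ) * Complex.I := by
    intro μ hμ
    have h1 := hint μ hμ
    rw [← integral_re_add_im h1]
    rfl
  have h2 : ∀ n, ∫ v : ℝ, G v * f n v = ∫ k, G k.1 * (k.2 : ℂ) ∂(S n : Measure KK) := by
    intro n
    exact (integral_lift (f n) G).symm
  simp_rw [h2]
  rw [key σ inferInstance]
  have h3 : (fun n => ∫ k, G k.1 * (k.2 : ℂ) ∂(S n : Measure KK)) = fun n =>
      ((∫ k, (G k.1 * (k.2 : ℂ)).re ∂(S n : Measure KK) : ℝ) : ℂ) +
      ((∫ k, (G k.1 * (k.2 : ℂ)).im ∂(S n : Measure KK) : ℝ) : ℂ) * Complex.I := by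
    ext n
    exact key _ inferInstance
  rw [h3]
  exact ((Complex.continuous_ofReal.tendsto _).comp hre).add
    (((Complex.continuous_ofReal.tendsto _).comp him).mul_const _)

end

end Pool.Agent.H69.Young
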