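import Pool.Agent.H69.Young

/-!
# Functions represented by limit measures
-/

namespace Pool.Agent.H69.Young

open MeasureTheory Set Metric Filter Topology OnePoint BoundedContinuousFunction Complex
open scoped NNReal ENNReal FourierTransform Real ComplexConjugate

attribute [local instance] instMS instBS

noncomputable section

/-- Extension by zero at infinity. -/
def ex (g : ℝ → ℂ) : OnePoint ℝ → ℂ := Function.extend (fun v : ℝ => (v : OnePoint ℝ)) g 0

theorem ex_coe (g : ℝ → ℂ) (v : ℝ) : ex g v = g v := OnePoint.coe_injective.extend_apply _ _ _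

theorem ex_infty (g : ℝ → ℂ) : ex g ∞ = 0 := Function.extend_apply' _ _ _ (by simp)

theorem measurable_ex {g : ℝ → ℂ} (hg : Measurable g) : Measurable (ex g) :=
  OnePoint.isOpenEmbedding_coe.measurableEmbedding.measurable_extend hg measurable_const

theorem norm_ex_le {g : ℝ → ℂ} {C : ℝ} (hC : 0 ≤ C) (h : ∀ v, ‖g v‖ ≤ C) (k : OnePoint ℝ) :
    ‖ex g k‖ ≤ C := by
  induction k using OnePoint.rec with
  | infty => rw [ex_infty]; simpa using hC
  | coe v => rw [ex_coe]; exact h v

theorem ex_sub (g h : ℝ → ℂ) (k : OnePoint ℝ) : ex g k - ex h k = ex (fun v => g v - h v) k := by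
  induction k using OnePoint.rec with
  | infty => simp [ex_infty]
  | coe v => simp [ex_coe]

theorem norm_ex_mono {g h : ℝ → ℂ} (H : ∀ v, ‖g v‖ ≤ ‖h v‖) (k : OnePoint ℝ) :
    ‖ex g k‖ ≤ ‖ex h k‖ := by
  induction k using OnePoint.rec with
  | infty => simp [ex_infty]
  | coe v => simpa [ex_coe] using H v

theorem norm_disc_le (z : Disc) : ‖(z : ℂ)‖ ≤ 1 := by
  have := z.2
  rwa [mem_closedBall_zero_iff] at this

theorem integrable_ex {σ : Measure KK} [IsFiniteMeasure σ] {g : ℝ → ℂ} (hg : Measurable g) {C : ℝ}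
    (hC : 0 ≤ C) (h : ∀ v, ‖g v‖ ≤ C) : Integrable (fun k : KK => ex g k.1) σ :=
  Integrable.of_bound ((measurable_ex hg).comp measurable_fst).aestronglyMeasurable C
    (ae_of_all _ fun k => norm_ex_le hC h k.1)

theorem aesm_mul {σ : Measure KK} {g : ℝ → ℂ} (hg : Measurable g) :
    AEStronglyMeasurable (fun k : KK => ex g k.1 * (k.2 : ℂ)) σ :=
  (((measurable_ex hg).comp measurable_fst).mul
    (measurable_subtype_coe.comp measurable_snd)).aestronglyMeasurable

theorem norm_mul_disc_le (z : ℂ) (w : Disc) : ‖z * (w : ℂ)‖ ≤ ‖z‖ := by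
  rw [norm_mul]
  exact mul_le_of_le_one_right (norm_nonneg _) (norm_disc_le w)

theorem integrable_mul {σ : Measure KK} [IsFiniteMeasure σ] {g : ℝ → ℂ} (hg : Measurable g) {C : ℝ}
    (hC : 0 ≤ C) (h : ∀ v, ‖g v‖ ≤ C) : Integrable (fun k : KK => ex g k.1 * (k.2 : ℂ)) σ :=
  Integrable.of_bound (aesm_mul hg) C
    (ae_of_all _ fun k => (norm_mul_disc_le _ _).trans (norm_ex_le hC h k.1))

/-- Dominated convergence for extended functions. -/
theorem tendsto_ex_mul {σ : Measure KK} [IsFiniteMeasure σ] {g : ℕ → ℝ → ℂ} {g' : ℝ → ℂ}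
    (hg : ∀ n, Measurable (g n)) {C : ℝ} (hC : 0 ≤ C) (h : ∀ n v, ‖g n v‖ ≤ C)
    (hlim : ∀ v, Tendsto (fun n => g n v) atTop (𝓝 (g' v))) :
    Tendsto (fun n => ∫ k, ex (g n) k.1 * (k.2 : ℂ) ∂σ) atTop
      (𝓝 (∫ k, ex g' k.1 * (k.2 : ℂ) ∂σ)) := by
  refine tendsto_integral_of_dominated_convergence (fun _ => C) (fun n => aesm_mul (hg n))
    (integrable_const _) (fun n => ae_of_all _ fun k =>
      (norm_mul_disc_le _ _).trans (norm_ex_le hC (h n) k.1)) (ae_of_all _ fun k => ?_)
  refine Tendsto.mul_const _ ?_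
  obtain ⟨k, w⟩ := k
  induction k using OnePoint.rec with
  | infty => simp [ex_infty]
  | coe v => simpa [ex_coe] using hlim v

theorem tendsto_norm_ex {σ : Measure KK} [IsFiniteMeasure σ] {ι : Type*} {l : Filter ι}
    [l.IsCountablyGenerated] {g : ι → ℝ → ℂ}
    (hg : ∀ n, Measurable (g n)) {C : ℝ} (hC : 0 ≤ C) (h : ∀ n v, ‖g n v‖ ≤ C)
    (hlim : ∀ v, Tendsto (fun n => g n v) l (𝓝 0)) :
    Tendsto (fun n => ∫ k, ‖ex (g n) k.1‖ ∂σ) l (𝓝 0) := by
  have : Tendsto (fun n => ∫ k, ‖ex (g n) k.1‖ ∂σ) l (𝓝 (∫ k : KK, (0:ℝ) ∂σ)) := by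
    refine tendsto_integral_filter_of_dominated_convergence (fun _ => C)
      (Eventually.of_forall fun n =>
        ((measurable_ex (hg n)).comp measurable_fst).norm.aestronglyMeasurable)
      (Eventually.of_forall fun n => ae_of_all _ fun k => ?_)
      (integrable_const _) (ae_of_all _ fun k => ?_)
    · rw [norm_norm]
      exact norm_ex_le hC (h n) k.1
    · obtain ⟨k, w⟩ := k
      induction k using OnePoint.rec with
      | infty => simpa [ex_infty] using tendsto_const_nhds
      | coe v =>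
        have := (hlim v).norm
        simpa [ex_coe] using this
  simpa using this

/-- `σ` represents the bounded function `F`. -/
def Rep (σ : Measure KK) (F : ℝ → ℂ) : Prop :=
  ∀ h : ℝ → ℂ, Integrable h → ∫ ξ, h ξ * F ξ = ∫ k, ex (𝓕 h) k.1 * (k.2 : ℂ) ∂σ

theorem continuous_fourier_L1 {f : ℝ → ℂ} (hf : Integrable f) : Continuous (𝓕 f) :=
  VectorFourier.fourierIntegral_continuous Real.continuous_fourierChar
    (innerSL ℝ).continuous₂ hf

theorem norm_fourier_le {f : ℝ → ℂ} (ξ : ℝ) : ‖𝓕 f ξ‖ ≤ ∫ v, ‖f v‖ :=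
  VectorFourier.norm_fourierIntegral_le_integral_norm Real.fourierChar _ (innerₗ ℝ) f ξ

theorem fourier_flip {f h : ℝ → ℂ} (hf : Integrable f) (hh : Integrable h) :
    ∫ v, 𝓕 h v * f v = ∫ ξ, h ξ * 𝓕 f ξ := by
  have := VectorFourier.integral_fourierIntegral_smul_eq_flip (L := innerₗ ℝ) (μ := volume)
    (ν := volume) Real.continuous_fourierChar continuous_inner hh hf
  rw [flip_innerₗ] at this
  exact this

theorem exists_rep (f : ℕ → Lp ℂ 1 (volume : Measure ℝ)) (M : ℝ) (hf : ∀ n, ‖f n‖ ≤ M) (F : ℝ → ℂ)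
    (hF : ∀ ξ, Tendsto (fun n => 𝓕 (f n : ℝ → ℂ) ξ) atTop (𝓝 (F ξ))) :
    ∃ σ : Measure KK, IsFiniteMeasure σ ∧ Rep σ F := by
  obtain ⟨σ, h1, h2⟩ := extraction f M hf
  refine ⟨σ, h1, fun h hh => ?_⟩
  have hc : Continuous (𝓕 h) := continuous_fourier_L1 hh
  let G : C(OnePoint ℝ, ℂ) := OnePoint.continuousMapMk ⟨𝓕 h, hc⟩ 0
    (by rw [coclosedCompact_eq_cocompact]; exact Real.zero_at_infty_fourier h)
  have hG : ∀ k : OnePoint ℝ, G k = ex (𝓕 h) k := by
    intro k
    induction k using OnePoint.rec with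
    | infty => rw [ex_infty]; rfl
    | coe v => rw [ex_coe]; rfl
  have h3 := h2 G
  have h4 : ∀ n, ∫ v : ℝ, G v * f n v = ∫ ξ, h ξ * 𝓕 (f n : ℝ → ℂ) ξ := by
    intro n
    rw [← fourier_flip (L1.integrable_coeFn (f n)) hh]
    congr 1
  simp_rw [h4, hG] at h3
  refine tendsto_nhds_unique ?_ h3
  have h5 : Tendsto (fun n => ∫ ξ, h ξ * 𝓕 (f n : ℝ → ℂ) ξ) atTop (𝓝 (∫ ξ, h ξ * F ξ)) := by
    refine tendsto_integral_of_dominated_convergence (fun ξ => ‖h ξ‖ * M) (fun n => ?_) ?_
      (fun n => ae_of_all _ fun ξ => ?_) (ae_of_all _ fun ξ => ?_)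
    · exact hh.aestronglyMeasurable.mul
        (continuous_fourier_L1 (L1.integrable_coeFn (f n))).aestronglyMeasurable
    · exact hh.norm.mul_const _
    · rw [norm_mul]
      refine mul_le_mul_of_nonneg_left ?_ (norm_nonneg _)
      refine (norm_fourier_le ξ).trans ?_
      rw [← L1.norm_eq_integral_norm]
      exact hf n
    · exact (hF ξ).const_mul _
  exact h5.mono_left (by rw [← Nat.cofinite_eq_atTop]; exact hyperfilter_le_cofinite)

/-- The window average of a pure exponential. -/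
def W (L a w : ℝ) : ℂ := (1 / L : ℝ) * ∫ η in a..(a + L), cexp (2 * π * w * η * I)

theorem norm_cexp_I (w η : ℝ) : ‖cexp (2 * π * w * η * I)‖ = 1 := by
  have : (2 * π * w * η * I : ℂ) = ((2 * π * w * η : ℝ) : ℂ) * I := by push_cast; ring
  rw [this, norm_exp_ofReal_mul_I]

theorem W_zero {L : ℝ} (hL : 0 < L) (a : ℝ) : W L a 0 = 1 := by
  unfold W
  simp only [ofReal_zero, mul_zero, zero_mul, Complex.exp_zero, intervalIntegral.integral_const]
  rw [add_sub_cancel_left, Complex.real_smul, mul_one, ← ofReal_mul, one_div,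
    inv_mul_cancel₀ hL.ne']
  simp

theorem norm_W_le_one {L : ℝ} (hL : 0 < L) (a w : ℝ) : ‖W L a w‖ ≤ 1 := by
  unfold W
  have h : ‖∫ η in a..(a + L), cexp (2 * π * w * η * I)‖ ≤ 1 * |a + L - a| :=
    intervalIntegral.norm_integral_le_of_norm_le_const fun η _ => (norm_cexp_I w η).le
  rw [add_sub_cancel_left, abs_of_pos hL, one_mul] at h
  rw [norm_mul, norm_real, Real.norm_of_nonneg (by positivity), one_div]
  calc L⁻¹ * _ ≤ L⁻¹ * L := mul_le_mul_of_nonneg_left h (by positivity)
    _ = 1 := inv_mul_cancel₀ hL.ne'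

theorem norm_W_le {L : ℝ} (hL : 0 < L) (a : ℝ) {w : ℝ} (hw : w ≠ 0) :
    ‖W L a w‖ ≤ 1 / (π * L * |w|) := by
  unfold W
  have hc : (2 * π * w * I : ℂ) ≠ 0 := by
    simp [hw, Real.pi_ne_zero]
  have h1 : ∫ η in a..(a + L), cexp (2 * π * w * η * I) =
      (cexp (2 * π * w * (a + L : ℝ) * I) - cexp (2 * π * w * a * I)) / (2 * π * w * I) := by
    have := integral_exp_mul_complex (a := a) (b := a + L) hc
    have e : (fun η : ℝ => cexp (2 * π * w * η * I)) = fun η : ℝ => cexp (2 * π * w * I * η) := by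
      ext η; congr 1; ring
    rw [e, this]
    congr 3
    · ring_nf
    · ring_nf
  rw [h1, norm_mul, norm_div, norm_real, Real.norm_of_nonneg (by positivity)]
  have h2 : ‖cexp (2 * π * w * (a + L : ℝ) * I) - cexp (2 * π * w * a * I)‖ ≤ 2 := by
    refine (norm_sub_le _ _).trans ?_
    rw [norm_cexp_I, norm_cexp_I]; norm_num
  have h3 : ‖(2 * π * w * I : ℂ)‖ = 2 * π * |w| := by
    simp [abs_of_pos Real.pi_pos]
  rw [h3]
  have hw' : 0 < |w| := abs_pos.mpr hw
  have hpi := Real.pi_pos
  calc 1 / L * (_ / (2 * π * |w|)) ≤ 1 / L * (2 / (2 * π * |w|)) := by gcongr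
    _ = _ := by field_simp

/-- The window average with frequency `u`. -/
def A (F : ℝ → ℂ) (a L u : ℝ) : ℂ :=
  (1 / L : ℝ) * ∫ η in a..(a + L), cexp (2 * π * u * η * I) * F η

/-- The test function of a window. -/
def box (a L u : ℝ) : ℝ → ℂ :=
  (Ioc a (a + L)).indicator fun η => ((1 / L : ℝ) : ℂ) * cexp (2 * π * u * η * I)

theorem integrable_box (a L u : ℝ) : Integrable (box a L u) := by
  unfold box
  rw [integrable_indicator_iff measurableSet_Ioc]
  have : Continuous fun η : ℝ => ((1 / L : ℝ) : ℂ) * cexp (2 * π * u * η * I) := by fun_prop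
  exact (this.integrableOn_Icc (a := a) (b := a + L)).mono_set Ioc_subset_Icc_self

theorem integral_box_mul {a L u : ℝ} (hL : 0 < L) (F : ℝ → ℂ) :
    ∫ η, box a L u η * F η = A F a L u := by
  unfold box A
  rw [intervalIntegral.integral_of_le (by linarith), ← integral_const_mul,
    ← integral_indicator measurableSet_Ioc]
  congr 1
  ext η
  by_cases h : η ∈ Ioc a (a + L)
  · simp [h]; ring
  · simp [h]

theorem fourier_box {a L u : ℝ} (hL : 0 < L) (v : ℝ) : 𝓕 (box a L u) v = W L a (u - v) := by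
  rw [Real.fourier_real_eq_integral_exp_smul]
  unfold box W
  rw [intervalIntegral.integral_of_le (by linarith), ← integral_const_mul,
    ← integral_indicator measurableSet_Ioc]
  congr 1
  ext η
  by_cases h : η ∈ Ioc a (a + L)
  · simp only [h, indicator_of_mem, smul_eq_mul]
    rw [mul_left_comm, ← Complex.exp_add]
    congr 2
    push_cast
    ring
  · simp [h]

/-- The atom at `u`. -/
def atom (σ : Measure KK) (u : ℝ) : ℂ :=
  ∫ k, ex (fun v => if v = u then 1 else 0) k.1 * (k.2 : ℂ) ∂σ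

/-- The error bound for windows. -/
def berr (u L : ℝ) : ℝ → ℂ := fun v => if v = u then 0 else ((min 1 (1 / (π * L * |u - v|)) : ℝ) : ℂ)

theorem measurable_berr (u L : ℝ) : Measurable (berr u L) := by
  unfold berr
  refine Measurable.ite (measurableSet_singleton u) measurable_const ?_
  fun_prop

theorem norm_berr_le {u L : ℝ} (hL : 0 < L) (v : ℝ) : ‖berr u L v‖ ≤ 1 := by
  unfold berr
  have hpi := Real.pi_pos
  split_ifs
  · simp
  · rw [norm_real, Real.norm_of_nonneg (by positivity)]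
    exact min_le_left _ _

theorem measurable_W (L a : ℝ) : Measurable (W L a) := by
  unfold W
  refine Measurable.const_mul ?_ _
  have : Continuous fun w : ℝ => ∫ η in a..(a + L), cexp (2 * π * w * η * I) := by
    refine intervalIntegral.continuous_parametric_intervalIntegral_of_continuous' ?_ _ _
    fun_prop
  exact this.measurable

theorem norm_W_sub_le {u L : ℝ} (hL : 0 < L) (a v : ℝ) :
    ‖W L a (u - v) - (if v = u then 1 else 0)‖ ≤ ‖berr u L v‖ := by
  unfold berr
  split_ifs with h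
  · subst h
    rw [sub_self, W_zero hL]; simp
  · have hpi := Real.pi_pos
    have h' : u - v ≠ 0 := fun h2 => h (by linarith)
    rw [sub_zero, norm_real, Real.norm_of_nonneg (by positivity)]
    exact le_min (norm_W_le_one hL _ _) (norm_W_le hL _ h')

/-- Uniform convergence of window means to the atom. -/
theorem window {σ : Measure KK} [IsFiniteMeasure σ] {F : ℝ → ℂ} (hF : Rep σ F) (u : ℝ) :
    ∃ e : ℕ → ℝ, Tendsto e atTop (𝓝 0) ∧ ∀ (n : ℕ) (a : ℝ),
      ‖A F a (n + 1) u - atom σ u‖ ≤ e n := by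
  refine ⟨fun n => ∫ k : KK, ‖ex (berr u (n + 1)) k.1‖ ∂σ, ?_, fun n a => ?_⟩
  · refine tendsto_norm_ex (C := 1) (fun n => measurable_berr _ _) zero_le_one
      (fun n v => norm_berr_le (by positivity) v) fun v => ?_
    unfold berr
    split_ifs with h
    · exact tendsto_const_nhds
    · have h' : 0 < |u - v| := abs_pos.mpr fun h2 => h (by linarith)
      have hpi := Real.pi_pos
      have h1 : Tendsto (fun n : ℕ => 1 / (π * ((n : ℝ) + 1) * |u - v|)) atTop (𝓝 0) := by
        have : (fun n : ℕ => 1 / (π * ((n : ℝ) + 1) * |u - v|)) =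
            fun n : ℕ => (1 / (π * |u - v|)) * (1 / ((n : ℝ) + 1)) := by
          ext n; field_simp
        rw [this]
        have := tendsto_one_div_add_atTop_nhds_zero_nat (𝕜 := ℝ)
        simpa using this.const_mul (1 / (π * |u - v|))
      have h2 : Tendsto (fun n : ℕ => min 1 (1 / (π * ((n : ℝ) + 1) * |u - v|))) atTop (𝓝 0) := by
        have := (tendsto_const_nhds (x := (1:ℝ))).min h1
        simpa using this
      have h3 := (Complex.continuous_ofReal.tendsto 0).comp h2
      simpa [Function.comp_def] using h3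
  · have hL : (0:ℝ) < n + 1 := by positivity
    rw [← integral_box_mul hL, hF _ (integrable_box _ _ _)]
    have e : 𝓕 (box a (n + 1) u) = fun v => W (n + 1) a (u - v) := by
      ext v; exact fourier_box hL v
    rw [e]
    unfold atom
    have hm1 : Measurable fun v => W (n + 1) a (u - v) :=
      (measurable_W _ _).comp (measurable_const.sub measurable_id)
    have hm2 : Measurable fun v : ℝ => if v = u then (1:ℂ) else 0 :=
      Measurable.ite (measurableSet_singleton u) measurable_const measurable_const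
    rw [← integral_sub (integrable_mul hm1 zero_le_one fun v => norm_W_le_one hL _ _)
      (integrable_mul hm2 zero_le_one fun v => by split_ifs <;> simp)]
    refine norm_integral_le_of_norm_le
      ((integrable_ex (measurable_berr u _) zero_le_one fun v => norm_berr_le hL v).norm)
      (ae_of_all _ fun k => ?_)
    rw [← sub_mul, ex_sub]
    exact (norm_mul_disc_le _ _).trans (norm_ex_mono (fun v => norm_W_sub_le hL a v) _)

/-- The frequency-side function. -/
def Psi (σ : Measure KK) (ξ : ℝ) : ℂ :=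
  ∫ k, ex (fun v => cexp (2 * π * (-v : ℝ) * ξ * I)) k.1 * (k.2 : ℂ) ∂σ

theorem avg_tendsto {g : ℝ → ℂ} {a : ℝ} (hg : ContinuousAt g a) (hm : Measurable g) :
    Tendsto (fun n : ℕ => ((1 / (1 / ((n:ℝ) + 1)) : ℝ) : ℂ) *
      ∫ η in a..(a + 1 / ((n:ℝ) + 1)), g η) atTop (𝓝 (g a)) := by
  have h1 : HasDerivAt (fun u => ∫ x in a..u, g x) (g a) a :=
    intervalIntegral.integral_hasDerivAt_right (by simp)
      (hm.stronglyMeasurable.stronglyMeasurableAtFilter) hg
  have h2 := h1.tendsto_slope_zero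
  have h3 : Tendsto (fun n : ℕ => 1 / ((n:ℝ) + 1)) atTop (𝓝[≠] 0) := by
    rw [tendsto_nhdsWithin_iff]
    exact ⟨tendsto_one_div_add_atTop_nhds_zero_nat, Eventually.of_forall fun n => by
      simp only [mem_compl_iff, mem_singleton_iff]; positivity⟩
  have h4 := h2.comp h3
  refine h4.congr fun n => ?_
  simp only [Function.comp_apply, intervalIntegral.integral_same, sub_zero]
  rw [Complex.real_smul]
  simp

theorem W_tendsto (a w : ℝ) :
    Tendsto (fun n : ℕ => W (1 / ((n:ℝ) + 1)) a w) atTop (𝓝 (cexp (2 * π * w * a * I))) := by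
  unfold W
  have hc : Continuous fun η : ℝ => cexp (2 * π * w * η * I) := by fun_prop
  exact avg_tendsto (g := fun η : ℝ => cexp (2 * π * w * η * I)) hc.continuousAt hc.measurable

/-- At continuity points the represented function is given by the character integral. -/
theorem eq_Psi {σ : Measure KK} [IsFiniteMeasure σ] {F : ℝ → ℂ} (hF : Rep σ F) (hm : Measurable F)
    {ξ : ℝ} (hc : ContinuousAt F ξ) : F ξ = Psi σ ξ := by
  have h1 : Tendsto (fun n : ℕ => A F ξ (1 / ((n:ℝ) + 1)) 0) atTop (𝓝 (F ξ)) := by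
    unfold A
    have := avg_tendsto hc hm
    simpa using this
  have h2 : ∀ n : ℕ, A F ξ (1 / ((n:ℝ) + 1)) 0 =
      ∫ k, ex (fun v => W (1 / ((n:ℝ) + 1)) ξ (-v)) k.1 * (k.2 : ℂ) ∂σ := by
    intro n
    have hL : (0:ℝ) < 1 / ((n:ℝ) + 1) := by positivity
    rw [← integral_box_mul hL, hF _ (integrable_box _ _ _)]
    have e : 𝓕 (box ξ (1 / ((n:ℝ) + 1)) 0) = fun v => W (1 / ((n:ℝ) + 1)) ξ (-v) := by
      ext v; rw [fourier_box hL v, zero_sub]
    rw [e]
  simp_rw [h2] at h1
  refine tendsto_nhds_unique h1 ?_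
  unfold Psi
  refine tendsto_ex_mul (C := 1) (fun n => (measurable_W _ _).comp measurable_neg) zero_le_one
    (fun n v => norm_W_le_one (by positivity) _ _) fun v => ?_
  exact W_tendsto ξ (-v)

theorem uniformContinuous_Psi (σ : Measure KK) [IsFiniteMeasure σ] : UniformContinuous (Psi σ) := by
  have hm : ∀ ξ : ℝ, Measurable fun v : ℝ => cexp (2 * π * (-v : ℝ) * ξ * I) := by
    intro ξ
    have : Continuous fun v : ℝ => cexp (2 * π * (-v : ℝ) * ξ * I) := by fun_prop
    exact this.measurable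
  have key : Tendsto (fun t : ℝ => ∫ k : KK,
      ‖ex (fun v : ℝ => cexp (2 * π * (-v : ℝ) * t * I) - 1) k.1‖ ∂σ) (𝓝 0) (𝓝 0) := by
    refine tendsto_norm_ex (C := 2) (fun t => (hm t).sub_const _) (by norm_num) (fun t v => ?_)
      fun v => ?_
    · refine (norm_sub_le _ _).trans ?_
      rw [norm_cexp_I, norm_one]; norm_num
    · have hc : Continuous fun t : ℝ => cexp (2 * π * (-v : ℝ) * t * I) - 1 := by fun_prop
      have := hc.tendsto 0
      simpa using this
  rw [Metric.uniformContinuous_iff]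
  intro ε hε
  obtain ⟨δ, hδ, h⟩ := Metric.tendsto_nhds_nhds.mp key ε hε
  refine ⟨δ, hδ, fun a b hab => ?_⟩
  have h1 := h (x := a - b) (by simpa [Real.dist_eq] using hab)
  rw [Real.dist_eq, sub_zero] at h1
  refine lt_of_le_of_lt ?_ (lt_of_le_of_lt (le_abs_self _) h1)
  rw [dist_eq_norm]
  unfold Psi
  rw [← integral_sub (integrable_mul (hm a) zero_le_one fun v => (norm_cexp_I _ _).le)
    (integrable_mul (hm b) zero_le_one fun v => (norm_cexp_I _ _).le)]
  refine norm_integral_le_of_norm_le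
    ((integrable_ex (C := 2) ((hm (a - b)).sub_const 1) (by norm_num) fun v => ?_).norm)
    (ae_of_all _ fun k => ?_)
  · refine (norm_sub_le _ _).trans ?_
    rw [norm_cexp_I, norm_one]; norm_num
  · rw [← sub_mul, ex_sub]
    refine (norm_mul_disc_le _ _).trans (norm_ex_mono (fun v => ?_) _)
    have e : cexp (2 * π * (-v : ℝ) * a * I) - cexp (2 * π * (-v : ℝ) * b * I) =
        cexp (2 * π * (-v : ℝ) * b * I) * (cexp (2 * π * (-v : ℝ) * (a - b : ℝ) * I) - 1) := by
      rw [mul_sub, mul_one, ← Complex.exp_add]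
      congr 2
      push_cast; ring
    rw [e, norm_mul, norm_cexp_I, one_mul]

/-- A represented function bounded below has an atom. -/
theorem exists_atom {σ : Measure KK} [IsFiniteMeasure σ] {F : ℝ → ℂ} (hF : Rep σ F)
    (hm : Measurable F) {M c : ℝ} (hM : ∀ ξ, ‖F ξ‖ ≤ M) (hc : 0 < c) (hcF : ∀ ξ, c ≤ ‖F ξ‖) :
    ∃ u, atom σ u ≠ 0 := by
  by_contra hne
  push Not at hne
  have hM0 : 0 ≤ M := (norm_nonneg _).trans (hM 0)
  set h : ℕ → ℝ → ℂ := fun n => (Ioc (0:ℝ) (n + 1)).indicator
    fun η => ((1 / (n + 1) : ℝ) : ℂ) * conj (F η) with hh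
  have hmc : Measurable fun η => conj (F η) := (Complex.continuous_conj.measurable).comp hm
  have hint : ∀ n, Integrable (h n) := by
    intro n
    rw [hh]
    simp only
    rw [integrable_indicator_iff measurableSet_Ioc]
    refine Measure.integrableOn_of_bounded (M := 1 / (n + 1) * M) (by simp)
      ((measurable_const.mul hmc).aestronglyMeasurable) (ae_of_all _ fun η => ?_)
    rw [norm_mul, norm_real, Real.norm_of_nonneg (by positivity), RCLike.norm_conj]
    exact mul_le_mul_of_nonneg_left (hM η) (by positivity)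
  have hfou : ∀ n v, 𝓕 (h n) v = conj (A F 0 (n + 1) v) := by
    intro n v
    rw [Real.fourier_real_eq_integral_exp_smul]
    unfold A
    rw [intervalIntegral.integral_of_le (by positivity), ← integral_const_mul,
      ← integral_indicator measurableSet_Ioc, ← integral_conj]
    congr 1
    ext η
    rw [zero_add]
    by_cases hη : η ∈ Ioc (0:ℝ) (n + 1)
    · simp only [hh, hη, indicator_of_mem, smul_eq_mul, map_mul, conj_ofReal]
      rw [← Complex.exp_conj, mul_left_comm]
      congr 3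
      simp only [map_mul, conj_ofReal, conj_I, map_ofNat]
      push_cast
      ring
    · simp [hh, hη]
  have hbd : ∀ n v, ‖𝓕 (h n) v‖ ≤ M := by
    intro n v
    rw [hfou, RCLike.norm_conj]
    unfold A
    have h1 : ‖∫ η in (0:ℝ)..(0 + (n + 1)), cexp (2 * π * v * η * I) * F η‖ ≤
        M * |0 + ((n:ℝ) + 1) - 0| :=
      intervalIntegral.norm_integral_le_of_norm_le_const fun η _ => by
        rw [norm_mul, norm_cexp_I, one_mul]; exact hM η
    rw [zero_add, sub_zero, abs_of_pos (by positivity)] at h1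
    rw [norm_mul, norm_real, Real.norm_of_nonneg (by positivity), zero_add]
    calc 1 / ((n:ℝ) + 1) * _ ≤ 1 / ((n:ℝ) + 1) * (M * (n + 1)) :=
          mul_le_mul_of_nonneg_left h1 (by positivity)
      _ = M := by field_simp
  have hlim : ∀ v, Tendsto (fun n => 𝓕 (h n) v) atTop (𝓝 0) := by
    intro v
    obtain ⟨e, he, hb⟩ := window hF v
    rw [hne v] at hb
    rw [tendsto_zero_iff_norm_tendsto_zero]
    refine squeeze_zero (fun _ => norm_nonneg _) (fun n => ?_) he
    rw [hfou, RCLike.norm_conj]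
    simpa using hb n 0
  have h1 : Tendsto (fun n => ∫ ξ, h n ξ * F ξ) atTop (𝓝 0) := by
    have : ∀ n, ∫ ξ, h n ξ * F ξ = ∫ k, ex (𝓕 (h n)) k.1 * (k.2 : ℂ) ∂σ := fun n => hF _ (hint n)
    simp_rw [this]
    have h2 := tendsto_ex_mul (σ := σ) (g := fun n => 𝓕 (h n)) (g' := fun _ => 0)
      (fun n => (continuous_fourier_L1 (hint n)).measurable) hM0 hbd hlim
    have h3 : ∀ k : OnePoint ℝ, ex (fun _ => 0) k = 0 := by
      intro k
      induction k using OnePoint.rec with
      | infty => exact ex_infty _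
      | coe v => exact ex_coe _ _
    simpa [h3] using h2
  have h2 : ∀ n, c ^ 2 ≤ (∫ ξ, h n ξ * F ξ).re := by
    intro n
    have e1 : ∫ ξ, h n ξ * F ξ = ((∫ ξ in Ioc (0:ℝ) (n + 1), 1 / ((n:ℝ) + 1) * ‖F ξ‖ ^ 2 : ℝ) : ℂ) := by
      rw [← integral_complex_ofReal, ← integral_indicator measurableSet_Ioc]
      congr 1
      ext η
      by_cases hη : η ∈ Ioc (0:ℝ) (n + 1)
      · simp only [hh, hη, indicator_of_mem]
        rw [mul_assoc, mul_comm (conj (F η)), Complex.mul_conj, Complex.normSq_eq_norm_sq]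
        push_cast
        ring
      · simp [hh, hη]
    rw [e1, ofReal_re]
    have e2 : c ^ 2 = ∫ ξ in Ioc (0:ℝ) (n + 1), 1 / ((n:ℝ) + 1) * c ^ 2 := by
      rw [setIntegral_const]
      simp only [Real.volume_real_Ioc, sub_zero, smul_eq_mul]
      rw [max_eq_left (by positivity)]
      field_simp
    rw [e2]
    refine setIntegral_mono_on (integrableOn_const (by simp)) ?_ measurableSet_Ioc fun ξ _ => ?_
    · refine Measure.integrableOn_of_bounded (M := 1 / (n + 1) * M ^ 2) (by simp)
        ((measurable_const.mul (hm.norm.pow_const 2)).aestronglyMeasurable)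
        (ae_of_all _ fun η => ?_)
      rw [Real.norm_of_nonneg (by positivity)]
      refine mul_le_mul_of_nonneg_left ?_ (by positivity)
      exact pow_le_pow_left₀ (norm_nonneg _) (hM η) 2
    · refine mul_le_mul_of_nonneg_left ?_ (by positivity)
      exact pow_le_pow_left₀ hc.le (hcF ξ) 2
  have h3 : Tendsto (fun n => (∫ ξ, h n ξ * F ξ).re) atTop (𝓝 0) := by
    have := (Complex.continuous_re.tendsto 0).comp h1
    simpa [Function.comp_def] using this
  have h4 : c ^ 2 ≤ 0 := ge_of_tendsto' h3 h2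
  nlinarith

end

end Pool.Agent.H69.Young
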